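import Mathlib
import Pool.Agent.MP_1ba41f_an.S2.SpecK

/-! The matching equations as a perturbed half map with fifteen slaves. -/

noncomputable section
open Set Complex Metric

namespace Pool.Agent.MP_1ba41f_an.S2

/-- Scales of the slaves. -/
structure Sc where
  R : ℝ
  rH : ℝ
  D : ℝ
  rm : ℝ
  q : ℝ
  Bp : ℝ

/-- the centre of the second encounter -/
def m3 (s : Sc) (z : Ws 15) : C2 := z.1 + (s.rm : ℂ) • (z.2.1 3, z.2.1 4)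

/-- the arguments of the three letters -/
def vA (s : Sc) (κ : ℂ) (z : Ws 15) : Fin 3 → Vv :=
  ![((κ, z.1), (s.R * z.2.1 0, s.R * z.2.2.1 0), s.rH * z.2.1 1, s.D * z.2.1 2),
    ((κ, Gm (m3 s z)), (s.R * z.2.1 5, s.R * z.2.1 8), s.rH * z.2.1 6, s.D * z.2.1 7),
    ((κ, m3 s z), (s.R * z.2.1 8, s.R * z.2.1 5), s.rH * z.2.1 9, s.D * z.2.1 10)]

/-- the matched quantities at the end of the letter `j` -/
def lA (s : Sc) (a : ℝ) (n : ℕ) (arc : Xi × ℂ → Az) (κ : ℂ) (z : Ws 15) (j : Fin 3) : Fin 6 → ℂ :=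
  LL a j κ (endN a n arc j (vA s κ z j))

/-- their deviations from the unperturbed values -/
def rH' (s : Sc) (a : ℝ) (n : ℕ) (arc : Xi × ℂ → Az) (κ : ℂ) (z : Ws 15) (j : Fin 3) : ℂ :=
  lA s a n arc κ z j 0 - hn a n - (vA s κ z j).2.2.1
def rK (s : Sc) (a : ℝ) (n : ℕ) (arc : Xi × ℂ → Az) (κ : ℂ) (z : Ws 15) (j : Fin 3) : ℂ :=
  lA s a n arc κ z j 1 - n - (vA s κ z j).2.1.1
def rS (s : Sc) (a : ℝ) (n : ℕ) (arc : Xi × ℂ → Az) (κ : ℂ) (z : Ws 15) (j : Fin 3) : ℂ :=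
  lA s a n arc κ z j 4 - (vA s κ z j).2.2.2
def rP (s : Sc) (a : ℝ) (n : ℕ) (arc : Xi × ℂ → Az) (κ : ℂ) (z : Ws 15) (j : Fin 3) : ℂ :=
  lA s a n arc κ z j 5 - Real.pi * (vA s κ z j).2.1.1
def uvA (s : Sc) (a : ℝ) (n : ℕ) (arc : Xi × ℂ → Az) (κ : ℂ) (z : Ws 15) (j : Fin 3) : C2 :=
  UV (endN a n arc j (vA s κ z j))

/-- the equations of the slaves -/
def GA (s : Sc) (a : ℝ) (n : ℕ) (arc : Xi × ℂ → Az) (κ : ℂ) (z : Ws 15) : Hh 15 :=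
  ![(-(rP s a n arc κ z 0 + rP s a n arc κ z 1) / (2 * Real.pi) -
      (rK s a n arc κ z 0 - rK s a n arc κ z 1) / 2) / s.R,
    -(rH' s a n arc κ z 0 - rH' s a n arc κ z 1) / (2 * s.rH),
    -(rS s a n arc κ z 0 + rS s a n arc κ z 1) / (2 * s.D),
    z.2.1 3 + ((QQ (-1) κ (uvA s a n arc κ z 0)).1 - (QQ 1 κ (uvA s a n arc κ z 1)).1) / s.rm,
    z.2.1 4 + ((QQ (-1) κ (uvA s a n arc κ z 0)).2 + (QQ 1 κ (uvA s a n arc κ z 1)).2) / s.rm,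
    (-(rP s a n arc κ z 0 + rP s a n arc κ z 1) / (2 * Real.pi) +
      (rK s a n arc κ z 0 - rK s a n arc κ z 1) / 2) / s.R,
    (rH' s a n arc κ z 0 - rH' s a n arc κ z 1) / (2 * s.rH),
    -(rS s a n arc κ z 0 + rS s a n arc κ z 1) / (2 * s.D),
    (-(s.Bp * (z.2.1 14 + z.2.2.2 14)) / (2 * Real.pi) -
      s.q * (z.2.1 12 - z.2.2.2 12) / 2) / s.R,
    -(s.q * (z.2.1 11 - z.2.2.2 11)) / 2,
    -(s.q * (z.2.1 13 + z.2.2.2 13)) / (2 * s.D),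
    rH' s a n arc κ z 2 / (s.rH * s.q),
    rK s a n arc κ z 2 / s.q,
    rS s a n arc κ z 2 / s.q,
    rP s a n arc κ z 2 / s.Bp]

/-- the perturbation of the half map -/
def fA (s : Sc) (a : ℝ) (n : ℕ) (arc : Xi × ℂ → Az) (κ : ℂ) (z : Ws 15) : C2 :=
  uvA s a n arc κ z 2 - PP 1 κ z.1

/-- UNIF: uniform continuity near the resonant circles. -/
def UnifStmt : Prop :=
  ∃ D1 : ℝ, 0 < D1 ∧ ∀ ε : ℝ, 0 < ε → ∃ μ : ℝ, 0 < μ ∧ ∀ x ∈ cthickening D1 B1,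
    (∀ σ : ℝ, σ = 1 ∨ σ = -1 → ∀ z : C2, ‖z - PP σ x.1 x.2‖ ≤ μ → ‖QQ σ x.1 z - x.2‖ ≤ ε) ∧
    (∀ m : C2, ‖m - x.2‖ ≤ μ → ‖PP 1 x.1 m - PP 1 x.1 x.2‖ ≤ ε) ∧
    ∀ σ τ : ℝ, σ = 1 ∨ σ = -1 → τ = 1 ∨ τ = -1 → ∀ m : C2, ‖m - x.2‖ ≤ μ →
      ‖eb σ τ x.1 m - eb σ τ x.1 x.2‖ ≤ ε

/-- The scales are compatible with the accuracy `μ` of the letters and the target `μL`. -/
structure ScOk (s : Sc) (d B μ μL : ℝ) : Prop where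
  pos : 0 < s.R ∧ 0 < s.rH ∧ 0 < s.D ∧ 0 < s.rm ∧ 0 < s.q ∧ 0 < s.Bp ∧ 0 < B ∧ 0 < μ ∧ 0 < μL
  le : s.D ≤ d ∧ s.rm ≤ s.D / 2 ∧ μL ≤ 1 ∧ s.q ≤ μL ∧ s.q ≤ μL * s.D ∧ μ ≤ μL * s.q ∧
    B ≤ μL * s.Bp ∧ s.Bp + 1 ≤ μL * s.R
  uq : ∀ x ∈ cthickening s.D B1, ∀ σ : ℝ, σ = 1 ∨ σ = -1 → ∀ z : C2, ‖z - PP σ x.1 x.2‖ ≤ μ →
    ‖QQ σ x.1 z - x.2‖ ≤ μL * s.rm / 2
  up : ∀ x ∈ cthickening s.D B1, ∀ m : C2, ‖m - x.2‖ ≤ s.rm →
    ‖PP 1 x.1 m - PP 1 x.1 x.2‖ ≤ μL / 2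
  half : μ ≤ μL / 2

theorem Gm_Gm (x : C2) : Gm (Gm x) = x := by simp [Gm]

theorem norm_Gm_sub (x y : C2) : ‖Gm x - Gm y‖ = ‖x - y‖ := by
  simp only [Gm, Prod.norm_def, Prod.fst_sub, Prod.snd_sub]
  rw [show -x.2 - -y.2 = -(x.2 - y.2) by ring, norm_neg]

theorem gm_mem (h0 : BaseStmt) {D : ℝ} {κ : ℂ} {m : C2} (h : (κ, m) ∈ thickening D B1) :
    (κ, Gm m) ∈ thickening D B1 := by
  obtain ⟨y, hy, hd⟩ := mem_thickening_iff.1 h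
  refine mem_thickening_iff.2 ⟨(y.1, Gm y.2), (h0.2.1 y hy).1, ?_⟩
  rw [Prod.dist_eq] at hd ⊢
  simpa only [dist_eq_norm, norm_Gm_sub] using hd

theorem m3_near {s : Sc} (hr : 0 < s.rm) {z : Ws 15} (hz : ‖z.2.1‖ < 1) :
    ‖m3 s z - z.1‖ < s.rm := by
  have h3 := (norm_le_pi_norm z.2.1 3).trans_lt hz
  have h4 := (norm_le_pi_norm z.2.1 4).trans_lt hz
  rw [m3, add_sub_cancel_left, norm_smul, norm_real, Real.norm_of_nonneg hr.le, Prod.norm_def]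
  exact mul_lt_of_lt_one_right hr (max_lt h3 h4)

theorem m3_mem {s : Sc} (hr : 0 < s.rm) (hD : s.rm ≤ s.D / 2) {κ : ℂ} {z : Ws 15}
    (hm : (κ, z.1) ∈ thickening (s.D / 2) B1) (hz : ‖z.2.1‖ < 1) :
    (κ, m3 s z) ∈ thickening s.D B1 := by
  obtain ⟨y, hy, hd⟩ := mem_thickening_iff.1 hm
  refine mem_thickening_iff.2 ⟨y, hy, ?_⟩
  have h1 : dist (κ, m3 s z) (κ, z.1) < s.rm := by
    rw [Prod.dist_eq, dist_self, dist_eq_norm]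
    exact max_lt hr (m3_near hr hz)
  linarith [dist_triangle (κ, m3 s z) (κ, z.1) y]

/-- the first argument of every letter is close to the resonant circles -/
theorem vA_thick (h0 : BaseStmt) {s : Sc} (hr : 0 < s.rm) (hD : s.rm ≤ s.D / 2) {κ : ℂ}
    {z : Ws 15} (hm : (κ, z.1) ∈ thickening (s.D / 2) B1) (hz : ‖z.2.1‖ < 1) (j : Fin 3) :
    (vA s κ z j).1 ∈ thickening s.D B1 := by
  have h3 := m3_mem hr hD hm hz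
  fin_cases j
  · exact thickening_mono (by linarith) _ hm
  · exact gm_mem h0 h3
  · exact h3

theorem vA_mem (h0 : BaseStmt) {s : Sc} {d B μ μL : ℝ} (hs : ScOk s d B μ μL) {κ : ℂ}
    {z : Ws 15} (hm : (κ, z.1) ∈ thickening (s.D / 2) B1) (hz : ‖z.2.1‖ < 1)
    (hz' : ‖z.2.2.1‖ < 1) (j : Fin 3) : vA s κ z j ∈ DV d s.R s.rH := by
  obtain ⟨hR, hH, hD, hr, -⟩ := hs.pos
  have b : ∀ (c : ℝ) (y : Hh 15) (i : Fin 15), 0 < c → ‖y‖ < 1 → ‖(c : ℂ) * y i‖ ≤ c :=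
    fun c y i hc hy => by
      rw [norm_mul, norm_real, Real.norm_of_nonneg hc.le]
      exact mul_le_of_le_one_right hc.le ((norm_le_pi_norm y i).trans hy.le)
  refine ⟨cthickening_mono hs.le.1 _
    (thickening_subset_cthickening _ _ (vA_thick h0 hr hs.le.2.1 hm hz j)), ?_⟩
  fin_cases j
  · exact ⟨b _ _ _ hR hz, b _ _ _ hR hz', b _ _ _ hH hz, (b _ _ _ hD hz).trans hs.le.1⟩
  · exact ⟨b _ _ _ hR hz, b _ _ _ hR hz, b _ _ _ hH hz, (b _ _ _ hD hz).trans hs.le.1⟩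
  · exact ⟨b _ _ _ hR hz, b _ _ _ hR hz, b _ _ _ hH hz, (b _ _ _ hD hz).trans hs.le.1⟩

theorem nu_real {n : ℕ} {t : ℂ} {R : ℝ} (ht : t.im = 0) (h : ‖t‖ ≤ R) (hn : 2 * R < n) :
    (nu n t).im = 0 := by
  have h1 : (n : ℂ) + t = ((n + t.re : ℝ) : ℂ) := by
    apply Complex.ext <;> simp [ht]
  have h2 : 0 ≤ n + t.re := by
    have := abs_le.1 ((abs_re_le_norm t).trans h)
    linarith [norm_nonneg t]
  have h3 : (1 / 3 : ℂ) = ((1 / 3 : ℝ) : ℂ) := by push_cast; rfl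
  rw [nu, h1, h3, ← ofReal_cpow h2, ofReal_im]

theorem im_inv_sq {z : ℂ} (h : z.im = 0) : (1 / z ^ 2).im = 0 := by
  have : z = (z.re : ℂ) := Complex.ext rfl (by simp [h])
  rw [this, ← ofReal_pow, ← ofReal_one, ← ofReal_div, ofReal_im]

theorem yN_real {a d R rH : ℝ} {n : ℕ} {v : Vv} (hv : v ∈ DV d R rH) (hr : RealV v)
    (hn' : 2 * R < n) (i : Fin 6) : (yN a n v i).im = 0 := by
  obtain ⟨h1, ⟨h2, h3⟩, h4, h5, h6, -⟩ := hr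
  have hR : 0 ≤ R := (norm_nonneg _).trans hv.2.1
  have e0 := im_inv_sq (nu_real (n := n) (t := 0) (R := R) rfl (by simpa using hR) hn')
  fin_cases i
  · simp [yN, h1]
  · have : hn a n = -(a + (1 - a) * (1 / nu n 0 ^ 2)) / 2 := by rw [hn]; ring
    show (hn a n + v.2.2.1).im = 0
    rw [this]
    generalize 1 / nu n 0 ^ 2 = c at e0
    simp [h6, e0]
  · simpa [yN] using h2
  · simp [yN, h3]
  · exact im_inv_sq (nu_real h4 hv.2.1 hn')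
  · exact im_inv_sq (nu_real h5 hv.2.2.1 hn')

theorem vA_real (s : Sc) (κ : ℝ) (x : ℝ × ℝ) (h0 h1 h2 : Fin 15 → ℝ) (j : Fin 3) :
    RealV (vA s κ (rw3 x h0 h1 h2) j) := by
  fin_cases j <;> simp [RealV, RealC2, vA, rw3, r2c, m3, Gm]

theorem sg_cases (j : Fin 3) : sg j = 1 ∨ sg j = -1 := by
  unfold sg; split_ifs <;> simp

theorem xiN_eq (a : ℝ) (n : ℕ) (j : Fin 3) (v : Vv) : xiN a n j v = xiY a (sg j) (yN a n v) := rfl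

/-- The end point of a real letter. -/
theorem real_end (hA : AlgAStmt) {s1 : ℝ → ℝ} {c0 c1 sa e1 d B R μ rH a e η S : ℝ} {n : ℕ}
    {K : Set (Xi × ℂ)} {enc : Xi × ℂ → En} {arc : Xi × ℂ → Az} (hsa : 0 < sa)
    (h : OutData s1 c0 c1 sa e1 d B R μ rH a e η S n K enc arc) (j : Fin 3) {v : Vv}
    (hv : v ∈ DV d R rH) (hr : RealV v) :
    TN n j v = ((TN n j v).re : ℂ) ∧ sa ≤ (TN n j v).re ∧ RealXi (xiN a n j v) ∧
      RealZ (endN a n arc j v) ∧ ham a e (physA (endN a n arc j v)) = (hn a n + v.2.2.1).re ∧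
      ang a (physA (endN a n arc j v)) = (5 / 8 * v.1.1).re := by
  obtain ⟨hK, hX, -, -, -, -, hO, -, -, -, -, -, hT⟩ := h.est j v hv
  obtain ⟨T, g, hT, -, hg⟩ := hT hr
  have hx : RealXi (xiN a n j v) :=
    ((hA a (sg j) _ (sg_cases j) hX).2 (yN_real hv hr h.big)).1
  have h1 := h.half.arcR _ hK hx T hT T ⟨hsa.le.trans hg.1, le_rfl⟩
  have e : endN a n arc j v = arc (xiN a n j v, (T : ℂ)) := by rw [endN, hT]
  rw [e] at hO ⊢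
  have h2 := h1.2.2.2.2.2 hO.1 hO.2.2.1
  refine ⟨by rw [hT, ofReal_re], by rw [hT, ofReal_re]; exact hg.1, hx, h1.1, h2.1, h2.2.1⟩

/-- HOLW: the equations are small holomorphic perturbations. -/
def LaHolStmt : Prop :=
  ∀ (s1 : ℝ → ℝ) (c0 c1 sa e1 d B μ μL a e η S : ℝ) (s : Sc) (n : ℕ) (K : Set (Xi × ℂ))
    (enc : Xi × ℂ → En) (arc : Xi × ℂ → Az), 0 < sa →
    OutData s1 c0 c1 sa e1 d B s.R μ s.rH a e η S n K enc arc → ScOk s d B μ μL →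
    ∀ (P : Type) [MetricSpace P] (κ : P → ℝ) (O : P → Set C2), Continuous κ →
      (∀ p, ∀ m ∈ O p, ((κ p : ℂ), m) ∈ thickening (s.D / 2) B1) →
      HolW O μL (fun p z => (fA s a n arc (κ p) z).1) ∧
      HolW O μL (fun p z => (fA s a n arc (κ p) z).2) ∧
      ∀ j, HolW O μL fun p z => GA s a n arc (κ p) z j

/-- centre data and lengths along a solution -/
def xiA (s : Sc) (a : ℝ) (n : ℕ) (w κ : ℝ) (m1 m2 : ℝ → ℝ) (h : ℝ → Fin 15 → ℝ) (j : Fin 3)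
    (θ : ℝ) : Xi := xiN a n j (vA s κ (ptW w m1 m2 h θ) j)
def TA (s : Sc) (n : ℕ) (w κ : ℝ) (m1 m2 : ℝ → ℝ) (h : ℝ → Fin 15 → ℝ) (j : Fin 3) (θ : ℝ) : ℝ :=
  (TN n j (vA s κ (ptW w m1 m2 h θ) j)).re

/-- A symmetric curve in the domain. -/
structure Sol (s : Sc) (κ : ℝ) (m1 m2 : ℝ → ℝ) (h : ℝ → Fin 15 → ℝ) : Prop where
  par : ∀ θ, m1 (-θ) = m1 θ ∧ m2 (-θ) = -m2 θ
  mem : ∀ θ, ((κ : ℂ), r2c (m1 θ, m2 θ)) ∈ thickening (s.D / 2) B1 ∧ ‖h θ‖ < 1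

/-- MATCH: a solution of the equations gives matched families. -/
def LaMatchStmt : Prop :=
  ∀ (s1 : ℝ → ℝ) (c0 c1 sa e1 d B μ μL a e η S w κ : ℝ) (s : Sc) (n : ℕ) (K : Set (Xi × ℂ))
    (enc : Xi × ℂ → En) (arc : Xi × ℂ → Az) (m1 m2 : ℝ → ℝ) (h : ℝ → Fin 15 → ℝ), 0 < sa →
    OutData s1 c0 c1 sa e1 d B s.R μ s.rH a e η S n K enc arc → ScOk s d B μ μL →
    Sol s κ m1 m2 h → (∀ θ j, (h θ j : ℂ) = GA s a n arc κ (ptW w m1 m2 h θ) j) →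
    (∀ θ, uvA s a n arc κ (ptW w m1 m2 h (-θ - w)) 2 = Gm (uvA s a n arc κ (ptW w m1 m2 h θ) 2)) →
    Match w arc (xiA s a n w κ m1 m2 h) (TA s n w κ m1 m2 h)

/-- FAM3: regularity of the three families. -/
def LaFamStmt : Prop :=
  ∀ (s1 : ℝ → ℝ) (c0 c1 sa e1 d B μ μL a e η S w : ℝ) (s : Sc) (n : ℕ) (K : Set (Xi × ℂ))
    (enc : Xi × ℂ → En) (arc : Xi × ℂ → Az), 0 < sa →
    OutData s1 c0 c1 sa e1 d B s.R μ s.rH a e η S n K enc arc → ScOk s d B μ μL → s.rm ≤ c1 →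
    ∀ (P : Type) [MetricSpace P] (κ : P → ℝ) (m1 m2 : P → ℝ → ℝ) (h : P → ℝ → Fin 15 → ℝ),
      Continuous κ → Pa m1 → Pa m2 → (∀ j, Pa fun p θ => h p θ j) →
      (∀ p, Sol s (κ p) (m1 p) (m2 p) (h p)) →
      (∀ j, Continuous (fun x : P × ℝ => xiA s a n w (κ x.1) (m1 x.1) (m2 x.1) (h x.1) j x.2) ∧
        Continuous fun x : P × ℝ => TA s n w (κ x.1) (m1 x.1) (m2 x.1) (h x.1) j x.2) ∧
      ∀ p, Fam3 η K arc (xiA s a n w (κ p) (m1 p) (m2 p) (h p)) (TA s n w (κ p) (m1 p) (m2 p) (h p)) ∧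
        ∀ j θ, sa ≤ TA s n w (κ p) (m1 p) (m2 p) (h p) j θ

/-- COV: closeness to the limit family. -/
def LaCovStmt : Prop :=
  ∀ (s1 : ℝ → ℝ) (c0 c1 sa e1 d B μ μL a e η S w μT b M H : ℝ) (s : Sc) (n : ℕ) (K : Set (Xi × ℂ))
    (enc : Xi × ℂ → En) (arc : Xi × ℂ → Az) (m1 m2 chi : ℝ → ℝ) (h : ℝ → Fin 15 → ℝ), 0 < sa →
    OutData s1 c0 c1 sa e1 d B s.R μ s.rH a e η S n K enc arc → ScOk s d B μ μL →
    Sol s (fK M H) m1 m2 h → Continuous chi →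
    (∀ j, Continuous (xiA s a n w (fK M H) m1 m2 h j)) →
    (∀ φ, ‖r2c (m1 (chi φ), m2 (chi φ)) - r2c (fx M H φ)‖ ≤ b ∧
      (((fK M H : ℝ) : ℂ), r2c (fx M H φ)) ∈ cthickening s.D B1 ∧
      dist (((fK M H : ℝ) : ℂ), r2c (fx M H φ)) (((fK 1 H : ℝ) : ℂ), r2c (fx 1 H φ)) ≤ d / 2 ∧
      (((fK 1 H : ℝ) : ℂ), r2c (fx 1 H φ)) ∈ B1) →
    (∀ x ∈ cthickening s.D B1, ∀ σ τ : ℝ, σ = 1 ∨ σ = -1 → τ = 1 ∨ τ = -1 → ∀ m : C2,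
      ‖m - x.2‖ ≤ b + s.rm → ‖eb σ τ x.1 m - eb σ τ x.1 x.2‖ ≤ μT / 2) →
    μ ≤ μT / 2 → b + s.rm ≤ μT / 2 → b + s.rm ≤ d / 2 → ∀ j, j ≠ 1 →
      (∀ φ, ‖xiA s a n w (fK M H) m1 m2 h j (chi φ) 4 -
            eb (sg j) (sg j) (fK M H) (r2c (fx M H φ))‖ ≤ μT ∧
          ‖xiA s a n w (fK M H) m1 m2 h j (chi φ) 5 -
            eb (sg j) (-sg j) (fK M H) (r2c (fx M H φ))‖ ≤ μT) ∧
      (H = He → CovFam (sg j) M μT (2 * e1) c0 sa S s1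
        (fun x => enc (xiA s a n w (fK M H) m1 m2 h j (chi x.1), x.2) 0)
        (fun x => enc (xiA s a n w (fK M H) m1 m2 h j (chi x.1), x.2) 2)
        (fun x => arc (xiA s a n w (fK M H) m1 m2 h j (chi x.1), x.2) 0)
        fun x => arc (xiA s a n w (fK M H) m1 m2 h j (chi x.1), x.2) 4)

end Pool.Agent.MP_1ba41f_an.S2
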