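import Mathlib
import Pool.Agent.MP_1ba41f_an.S2.LA.Spec

/-! The tori from the letters, the family of circles and the invariant circle theorem. -/

noncomputable section
open Set Complex Metric

namespace Pool.Agent.MP_1ba41f_an.S2

theorem HolW.mono_le {P : Type} [TopologicalSpace P] {n : ℕ} {O : P → Set C2} {μ μ' : ℝ}
    {F : P → Ws n → ℂ} (h : HolW O μ F) (hm : μ ≤ μ') : HolW O μ' F :=
  ⟨h.cont, h.diff, fun p z hz => (h.bd p z hz).trans hm, h.real⟩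

theorem torusOf (hO : OutStmt) (hLB : LBStmt) (hF : FamStmt) (hF0 : Fam0Stmt) (hU : UnifStmt)
    (h1 : LaHolStmt) (h2 : LaMatchStmt) (h3 : LaFamStmt) (h4 : LaCovStmt) : TorusStmt := by
  obtain ⟨s1, c0, c1, hs1, hc0, hc1, hO⟩ := hO
  refine ⟨s1, c0, hs1, hc0, fun sa δ1 hsa hδ1 => ?_⟩
  obtain ⟨d, B, hd, hB, hO⟩ := hO sa (δ1 / 2) hsa (half_pos hδ1)
  obtain ⟨D1, hD1, hU⟩ := hU
  obtain ⟨D, hD, hDd, hDD⟩ : ∃ D, 0 < D ∧ D ≤ d ∧ D ≤ D1 :=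
    ⟨min d D1, lt_min hd hD1, min_le_left _ _, min_le_right _ _⟩
  obtain ⟨dF, hdF, hF1, hF2⟩ : ∃ x, 0 < x ∧ x ≤ D / 2 ∧ x ≤ δ1 :=
    ⟨min (D / 2) δ1, lt_min (half_pos hD) hδ1, min_le_left _ _, min_le_right _ _⟩
  obtain ⟨δ, hδ, hδd, hδ10, s0, d0, om, V, N, chi, hL, hnb, hom, hchi, hcur⟩ := hF dF hdF
  refine ⟨δ, hδ, hδd.trans hF2, hδ10, om, chi, hL.omc, hom, hchi, fun w g η μT hw hη hμ => ?_⟩
  obtain ⟨μe, hμe, hUe⟩ := hU (μT / 2) (half_pos hμ)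
  obtain ⟨b0, hb0, hb1, hb2, hb3⟩ : ∃ x, 0 < x ∧ x ≤ μe / 2 ∧ x ≤ μT / 4 ∧ x ≤ d / 4 :=
    ⟨min (μe / 2) (min (μT / 4) (d / 4)), by positivity, min_le_left _ _,
      (min_le_right _ _).trans (min_le_left _ _), (min_le_right _ _).trans (min_le_right _ _)⟩
  obtain ⟨b, hb, hb4, hb5, hb6⟩ : ∃ x, 0 < x ∧ x ≤ b0 ∧ x ≤ η ∧ x ≤ 1 / 2 :=
    ⟨min b0 (min η (1 / 2)), by positivity, min_le_left _ _,
      (min_le_right _ _).trans (min_le_left _ _), (min_le_right _ _).trans (min_le_right _ _)⟩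
  have : CompactSpace (PB δ) := isCompact_iff_compactSpace.1 (isCompact_Icc.prod isCompact_Icc)
  obtain ⟨μ0, hμ0, hL'⟩ := hLB (PB δ) s0 d0 _ _ om V N _ hL 15 w g b hw hb
  obtain ⟨μL, hμL, hL1, hL2⟩ : ∃ x, 0 < x ∧ x ≤ μ0 ∧ x ≤ 1 :=
    ⟨min μ0 1, by positivity, min_le_left _ _, min_le_right _ _⟩
  obtain ⟨μp, hμp, hUp⟩ := hU (μL / 2) (half_pos hμL)
  obtain ⟨rm, hrm, hr1, hr2, hr3, hr4⟩ : ∃ x, 0 < x ∧ x ≤ D / 2 ∧ x ≤ c1 ∧ x ≤ μp ∧ x ≤ b0 :=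
    ⟨min (min (D / 2) c1) (min μp b0), by positivity, (min_le_left _ _).trans (min_le_left _ _),
      (min_le_left _ _).trans (min_le_right _ _), (min_le_right _ _).trans (min_le_left _ _),
      (min_le_right _ _).trans (min_le_right _ _)⟩
  obtain ⟨μq, hμq, hUq⟩ := hU (μL * rm / 2) (by positivity)
  obtain ⟨q, hq, hq1, hq2⟩ : ∃ x, 0 < x ∧ x ≤ μL ∧ x ≤ μL * D :=
    ⟨min μL (μL * D), by positivity, min_le_left _ _, min_le_right _ _⟩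
  obtain ⟨μ, hμ', hm1, hm2, hm3, hm4⟩ :
      ∃ x, 0 < x ∧ x ≤ μq ∧ x ≤ μL * q ∧ x ≤ μL / 2 ∧ x ≤ μT / 2 :=
    ⟨min (min μq (μL * q)) (min (μL / 2) (μT / 2)), by positivity,
      (min_le_left _ _).trans (min_le_left _ _), (min_le_left _ _).trans (min_le_right _ _),
      (min_le_right _ _).trans (min_le_left _ _), (min_le_right _ _).trans (min_le_right _ _)⟩
  obtain ⟨n, rH, da, e0, hrH, hda, he0, hO⟩ := hO ((B / μL + 1) / μL) μ (by positivity) hμ'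
  refine ⟨da, e0, hda, he0, fun a e ha he he' => ?_⟩
  obtain ⟨η', S, K, enc, arc, hD'⟩ := hO a e ha he he'
  let s : Sc := ⟨(B / μL + 1) / μL, rH, D, rm, q, B / μL⟩
  have hsub : cthickening D B1 ⊆ cthickening D1 B1 := cthickening_mono hDD _
  have hs : ScOk s d B μ μL :=
    { pos := ⟨by positivity, hrH, hD, hrm, hq, by positivity, hB, hμ', hμL⟩
      le := ⟨hDd, hr1, hL2, hq1, hq2, hm2, (by field_simp : μL * (B / μL) = B).ge,
        (by field_simp : μL * ((B / μL + 1) / μL) = B / μL + 1).ge⟩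
      uq := fun x hx σ hσ z hz => (hUq x (hsub hx)).1 σ hσ z (hz.trans hm1)
      up := fun x hx m hm => (hUp x (hsub hx)).2.1 m (hm.trans hr3)
      half := hm3 }
  have hbox : ∀ p : PB δ, p.1.1 ∈ Icc (9 / 10 : ℝ) 1 := fun p =>
    ⟨by linarith [p.2.1.1], p.2.1.2⟩
  have hκ : Continuous fun p : PB δ => fK p.1.1 p.1.2 :=
    (hF0.1.comp_continuous (f := fun p : PB δ => (p.1.1, p.1.2, (0 : ℝ))) (by fun_prop)
      fun p => ⟨hbox p, p.2.2, mem_univ _⟩).fst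
  have hth : ∀ p, ∀ m ∈ nbh d0 (fun p : PB δ => p.1.2) (fun p => fc p.1.1 p.1.2) V p,
      (((fK p.1.1 p.1.2 : ℝ) : ℂ), m) ∈ thickening (s.D / 2) B1 := fun p m hm =>
    thickening_mono hF1 _ (hnb p m hm)
  obtain ⟨w1, w2, w3⟩ := h1 s1 c0 c1 sa (δ1 / 2) d B μ μL a e η' S s n K enc arc hsa hD' hs
    (PB δ) _ _ hκ hth
  obtain ⟨m1, m2, h, sig, p1, p2, p3, sc, sb, par, est, ctr, cst⟩ :=
    hL' _ _ _ (w1.mono_le hL1) (w2.mono_le hL1) fun j => (w3 j).mono_le hL1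
  have hsol : ∀ p : PB δ, Sol s (fK p.1.1 p.1.2) (m1 p) (m2 p) (h p) := fun p =>
    ⟨par p, fun θ => ⟨hth p _ (est p θ).2.2.1.1, by linarith [(est p θ).2.1]⟩⟩
  obtain ⟨fc', fm⟩ := h3 s1 c0 c1 sa (δ1 / 2) d B μ μL a e η' S w s n K enc arc hsa hD' hs hr2
    (PB δ) _ m1 m2 h hκ p1 p2 p3 hsol
  refine ⟨η', S, K, enc, arc, fun p => xiA s a n w (fK p.1.1 p.1.2) (m1 p) (m2 p) (h p),
    fun p => TA s n w (fK p.1.1 p.1.2) (m1 p) (m2 p) (h p), sig, hD'.pos.2.2.1,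
    by linarith [hD'.pos.2.2.2.2.2.1], hD'.half, sc, fun p => (sb p).trans hb5, fc', fun p => ?_⟩
  have cov := h4 s1 c0 c1 sa (δ1 / 2) d B μ μL a e η' S w μT b p.1.1 p.1.2 s n K enc arc (m1 p)
    (m2 p) (chi p) (h p) hsa hD' hs (hsol p) (hchi p)
    (fun j => (fc' j).1.comp (f := fun θ : ℝ => (p, θ)) (by fun_prop))
    (fun φ => ⟨by rw [← (hcur p φ).1]; exact (est p _).1,
      thickening_subset_cthickening _ _ (thickening_mono (by linarith : dF ≤ D) _ (hnb p _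
        ⟨chi p φ, by rw [(hcur p φ).1, sub_self, norm_zero]; exact hL.d0pos⟩)),
      by linarith [(hcur p φ).2],
      ((hF0.2.2.2 1 ⟨by norm_num, le_rfl⟩ _ p.2.2).2.2.2.2 φ).2.2.2.2 rfl⟩)
    (fun x hx σ τ hσ hτ m hm => (hUe x (hsub hx)).2.2 σ τ hσ hτ m
      (hm.trans (by show b + rm ≤ μe; linarith)))
    hm4 (by show b + rm ≤ _; linarith) (by show b + rm ≤ _; linarith)
  refine ⟨(fm p).1, fun hp => ?_, fun hp j θ => ?_, fun j hj => (cov j hj).1, (fm p).2,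
    fun hp j hj => ?_⟩
  · refine h2 s1 c0 c1 sa (δ1 / 2) d B μ μL a e η' S w _ s n K enc arc _ _ _ hsa hD' hs (hsol p)
      (fun θ j => (est p θ).2.2.2 j) fun θ => ?_
    have := ctr p hp θ
    have e1 : ∀ θ, PP 1 (fK p.1.1 p.1.2) (r2c (m1 p θ, m2 p θ)) +
        ((fA s a n arc (fK p.1.1 p.1.2) (ptW w (m1 p) (m2 p) (h p) θ)).1,
          (fA s a n arc (fK p.1.1 p.1.2) (ptW w (m1 p) (m2 p) (h p) θ)).2) =
        uvA s a n arc (fK p.1.1 p.1.2) (ptW w (m1 p) (m2 p) (h p) θ) 2 := fun θ => by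
      rw [Prod.mk.eta, fA]; exact add_sub_cancel _ _
    rwa [e1, e1] at this
  · have e1 : ∀ θ, ptW w (m1 p) (m2 p) (h p) θ = ptW w (m1 p) (m2 p) (h p) 0 := fun θ => by
      have c := cst p hp
      rw [ptW, ptW, (c θ).1, (c θ).2.1, (c θ).2.2, (c (-θ)).2.2, (c (-θ - w)).2.2, (c (-0)).2.2,
        (c (-0 - w)).2.2]
    simp only [xiA, TA, e1 θ, and_self]
  · have := (cov j hj).2 hp
    rwa [show 2 * (δ1 / 2) = δ1 by ring] at this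

end Pool.Agent.MP_1ba41f_an.S2
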