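import Mathlib
import Pool.Agent.MP_1ba41f_an.S2.LA.Spec

/-! COV: the families along a solution are close to the limit family. -/

noncomputable section
open Set Complex Metric

namespace Pool.Agent.MP_1ba41f_an.S2

namespace LaCov

theorem nrm {n : ℕ} {h : Fin n → ℝ} (hh : ‖h‖ < 1) : ‖(fun j => (h j : ℂ) : Hh n)‖ < 1 := by
  refine lt_of_le_of_lt ?_ hh
  refine (pi_norm_le_iff_of_nonneg (norm_nonneg _)).2 fun j => ?_
  rw [norm_real]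
  exact norm_le_pi_norm h j

theorem vA_fst {s : Sc} (hr : 0 < s.rm) (κ : ℂ) {z : Ws 15} (hz : ‖z.2.1‖ < 1) {j : Fin 3}
    (hj : j ≠ 1) : (vA s κ z j).1.1 = κ ∧ ‖(vA s κ z j).1.2 - z.1‖ ≤ s.rm := by
  have h : j = 0 ∨ j = 2 := by omega
  rcases h with rfl | rfl
  · have e : (vA s κ z 0).1 = (κ, z.1) := rfl
    rw [e]
    exact ⟨rfl, by simpa using hr.le⟩
  · have e : (vA s κ z 2).1 = (κ, m3 s z) := rfl
    rw [e]
    exact ⟨rfl, (m3_near hr hz).le⟩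

/-- The argument of a letter along a solution. -/
theorem pt (h0 : BaseStmt) {s : Sc} {d B μ μL κ : ℝ} {m1 m2 : ℝ → ℝ} {h : ℝ → Fin 15 → ℝ}
    (hs : ScOk s d B μ μL) (hS : Sol s κ m1 m2 h) (w θ : ℝ) (j : Fin 3) :
    vA s κ (ptW w m1 m2 h θ) j ∈ DV d s.R s.rH ∧ RealV (vA s κ (ptW w m1 m2 h θ) j) ∧
      (j ≠ 1 → (vA s κ (ptW w m1 m2 h θ) j).1.1 = κ ∧
        ‖(vA s κ (ptW w m1 m2 h θ) j).1.2 - r2c (m1 θ, m2 θ)‖ ≤ s.rm) := by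
  have hr : 0 < s.rm := hs.pos.2.2.2.1
  have z1 : ‖(ptW w m1 m2 h θ).2.1‖ < 1 := nrm (hS.mem θ).2
  have z2 : ‖(ptW w m1 m2 h θ).2.2.1‖ < 1 := nrm (hS.mem (-θ)).2
  have z0 : (ptW w m1 m2 h θ).1 = r2c (m1 θ, m2 θ) := rfl
  refine ⟨vA_mem h0 hs (z0 ▸ (hS.mem θ).1) z1 z2 j, ?_, fun hj => z0 ▸ vA_fst hr κ z1 hj⟩
  unfold ptW
  exact vA_real _ _ _ _ _ _ j

theorem tri {a b c : ℂ} {x y z : ℝ} (h1 : ‖a - b‖ ≤ x) (h2 : ‖b - c‖ ≤ y) (h : x + y ≤ z) :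
    ‖a - c‖ ≤ z := by
  have := norm_add_le (a - b) (b - c)
  rw [sub_add_sub_cancel] at this
  linarith

theorem par {s T : ℝ} (hT : 0 < T) (h0 : 0 ≤ s) (h1 : s ≤ T) :
    s / T ∈ Icc (0 : ℝ) 1 ∧ s / T * T = s ∧ ((s / T : ℝ) : ℂ) * (T : ℂ) = (s : ℂ) := by
  have e : s / T * T = s := div_mul_cancel₀ s hT.ne'
  exact ⟨⟨div_nonneg h0 hT.le, (div_le_one hT).2 h1⟩, e, by rw [← ofReal_mul, e]⟩

/-- A continuous family of half arcs with pointwise estimates. -/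
theorem fam {a e η S sa c0 c1 e1 d μ μT M : ℝ} {s1 : ℝ → ℝ} {K : Set (Xi × ℂ)}
    {enc : Xi × ℂ → En} {arc : Xi × ℂ → Az} (hH : Half a e η K S enc arc) (hsa : 0 < sa)
    (hη : 0 < η) (hη1 : η ≤ μT / 2) (hη2 : η ≤ e1) (j : Fin 3) {ξ : ℝ → Xi} (hξ : Continuous ξ)
    (hp : ∀ φ, ∃ (T : ℝ) (g : ℝ → Az) (v : Vv), (ξ φ, (T : ℂ)) ∈ K ∧ RealXi (ξ φ) ∧
      BaseArc a (ξ φ) T g ∧ RealArc j s1 c0 c1 sa e1 d μ T v (ξ φ) g ∧
      ‖ξ φ 4 - eb (sg j) (sg j) (fK M He) (r2c (fx M He φ))‖ ≤ μT ∧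
      ‖ξ φ 5 - eb (sg j) (-sg j) (fK M He) (r2c (fx M He φ))‖ ≤ μT ∧
      ‖ξ φ 2 - (fx M He φ).1‖ ≤ μT / 2 ∧
      (((fK 1 He : ℝ) : ℂ), r2c (fx 1 He φ)) ∈ B1 ∧
      dist v.1 (((fK 1 He : ℝ) : ℂ), r2c (fx 1 He φ)) ≤ d) :
    CovFam (sg j) M μT (2 * e1) c0 sa S s1 (fun x => enc (ξ x.1, x.2) 0)
      (fun x => enc (ξ x.1, x.2) 2) (fun x => arc (ξ x.1, x.2) 0)
      fun x => arc (ξ x.1, x.2) 4 := by
  obtain ⟨U, V, -, -, hU, hV, hUV⟩ := hH.hol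
  have hc : Continuous fun x : ℝ × ℝ => ((ξ x.1, (x.2 : ℂ)) : Xi × ℂ) :=
    (hξ.comp continuous_fst).prodMk (continuous_ofReal.comp continuous_snd)
  have cE : ContinuousOn (fun x : ℝ × ℝ => enc (ξ x.1, x.2)) (univ ×ˢ Icc 0 S) := by
    refine hU.continuousOn.comp hc.continuousOn fun x hx => ?_
    obtain ⟨T, g, v, hK, -⟩ := hp x.1
    exact (hUV _ hK).1 x.2 hx.2
  have cA : ContinuousOn (fun x : ℝ × ℝ => arc (ξ x.1, x.2)) (univ ×ˢ Icc 0 sa) := by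
    refine hV.continuousOn.comp hc.continuousOn fun x hx => ?_
    obtain ⟨T, g, v, hK, -, -, hg, -⟩ := hp x.1
    obtain ⟨hu, -, e⟩ := par (hsa.trans_le hg.1) hx.2.1 (hx.2.2.trans hg.1)
    have := (hUV _ hK).2 _ hu
    rwa [e] at this
  have hημ : η ≤ μT := by linarith
  refine ⟨hH.spos, ⟨(continuous_apply 0).comp_continuousOn cE,
    (continuous_apply 2).comp_continuousOn cE⟩, ⟨(continuous_apply 0).comp_continuousOn cA,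
    (continuous_apply 4).comp_continuousOn cA⟩, fun φ => ?_, fun φ => ?_, fun φ s hs => ?_⟩
  · obtain ⟨T, g, v, hK, hx, -⟩ := hp φ
    have := congrArg Prod.fst (hH.join _ hK hx)
    simp only [physE, physA, Prod.mk.injEq] at this
    simpa only [ofReal_zero] using this
  · obtain ⟨T, g, v, hK, hx, hb, hg, e4, e5, e2, -⟩ := hp φ
    obtain ⟨A, hA, hE⟩ := hH.encR _ hK hx
    obtain ⟨R, hR, hRη, hD⟩ := hH.dir _ hK hx T rfl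
    obtain ⟨ρ, r1, r2, hρ⟩ := hg.2.2.2.1
    refine ⟨A, R, ρ, ξ φ 4, ξ φ 5, hA, hx.2.2.2.2.1, hx.2.2.2.2.2, e4, e5, fun s hs => ?_, hR,
      hRη.trans hημ, r1, r2, fun ε hε s hs h1 => ?_⟩
    · obtain ⟨-, b0, b2, b3, -⟩ := hE s hs
      refine ⟨tri b0 e2 (by linarith), b2.trans hημ, b3.trans ?_⟩
      have : 0 ≤ Real.sinh s := Real.sinh_nonneg_iff.2 hs.1
      gcongr
    · obtain ⟨hu, e, e'⟩ := par (hsa.trans_le hg.1) hs.1 (hs.2.trans hg.1)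
      have a1 := hD g hb _ hu
      have a2 := hρ ε hε _ hu (by rwa [e])
      simp only [e'] at a1
      rw [e] at a1 a2
      have a3 := norm_add_le (dd (arc (ξ φ, s)) - R * ξ φ 4 ^ 2 - dd (g (s / T)))
        (dd (g (s / T)) - (s * ρ : ℝ) * ξ φ 4 ^ 2)
      have a4 : dd (arc (ξ φ, s)) - R * ξ φ 4 ^ 2 - dd (g (s / T)) +
          (dd (g (s / T)) - (s * ρ : ℝ) * ξ φ 4 ^ 2) =
          arc (ξ φ, s) 4 ^ 2 - arc (ξ φ, s) 0 ^ 2 - (R + s * ρ) * ξ φ 4 ^ 2 := by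
        rw [dd]; push_cast; ring
      rw [a4] at a3
      have a5 : η * (R + s) ≤ μT * (R + s) :=
        mul_le_mul_of_nonneg_right hημ (add_nonneg hR.le hs.1)
      show ‖arc (ξ φ, s) 4 ^ 2 - arc (ξ φ, s) 0 ^ 2 - (R + s * ρ) * ξ φ 4 ^ 2‖ ≤ _
      linarith
  · obtain ⟨T, g, v, hK, hx, hb, hg, -, -, -, hB, hd⟩ := hp φ
    obtain ⟨hu, e, e'⟩ := par (hsa.trans_le hg.1) hs.1 (hs.2.trans hg.1)
    obtain ⟨τ2, τ3, t2, t3, ht, n1, n2, n3⟩ := hg.2.2.2.2.1 _ hB hd _ hu (by rw [e]; exact hs.2)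
    have a1 := hH.near _ hK g hb _ hu
    simp only [e'] at a1
    have a0 : ‖arc (ξ φ, s) 0 - g (s / T) 0‖ ≤ η := (norm_le_pi_norm (_ - _) 0).trans a1
    have a4 : ‖arc (ξ φ, s) 4 - g (s / T) 4‖ ≤ η := (norm_le_pi_norm (_ - _) 4).trans a1
    exact ⟨τ2, τ3, t2, t3, ht.trans e, n1.trans (by linarith), tri a0 n2 (by linarith),
      tri a4 n3 (by linarith)⟩

end LaCov

theorem laCov (hA : AlgAStmt) (h0 : BaseStmt) : LaCovStmt := by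
  intro s1 c0 c1 sa e1 d B μ μL a e η S w μT b M H s n K enc arc m1 m2 chi h hsa hO hs hS hchi hξ
    hf hu hμ hb hd j hj
  have key : ∀ φ, ∃ (T : ℝ) (g : ℝ → Az) (v : Vv),
      (xiA s a n w (fK M H) m1 m2 h j (chi φ), (T : ℂ)) ∈ K ∧
      RealXi (xiA s a n w (fK M H) m1 m2 h j (chi φ)) ∧
      BaseArc a (xiA s a n w (fK M H) m1 m2 h j (chi φ)) T g ∧
      RealArc j s1 c0 c1 sa e1 d μ T v (xiA s a n w (fK M H) m1 m2 h j (chi φ)) g ∧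
      ‖xiA s a n w (fK M H) m1 m2 h j (chi φ) 4 -
        eb (sg j) (sg j) (fK M H) (r2c (fx M H φ))‖ ≤ μT ∧
      ‖xiA s a n w (fK M H) m1 m2 h j (chi φ) 5 -
        eb (sg j) (-sg j) (fK M H) (r2c (fx M H φ))‖ ≤ μT ∧
      ‖xiA s a n w (fK M H) m1 m2 h j (chi φ) 2 - (fx M H φ).1‖ ≤ μT / 2 ∧
      (((fK 1 H : ℝ) : ℂ), r2c (fx 1 H φ)) ∈ B1 ∧
      dist v.1 (((fK 1 H : ℝ) : ℂ), r2c (fx 1 H φ)) ≤ d := by
    intro φ
    obtain ⟨hv, hr, h1⟩ := LaCov.pt h0 hs hS w (chi φ) j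
    obtain ⟨h1, h2⟩ := h1 hj
    obtain ⟨f1, f2, f3, f4⟩ := hf φ
    unfold xiA
    generalize vA s (fK M H) (ptW w m1 m2 h (chi φ)) j = v at hv hr h1 h2
    have hx := (real_end hA hsa hO j hv hr).2.2.1
    obtain ⟨hK, -, -, -, -, -, -, -, -, -, -, -, hT⟩ := hO.est j v hv
    obtain ⟨T, g, hT, hB, hg⟩ := hT hr
    have h3 : ‖v.1.2 - r2c (fx M H φ)‖ ≤ b + s.rm := by
      have := norm_add_le (v.1.2 - r2c (m1 (chi φ), m2 (chi φ)))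
        (r2c (m1 (chi φ), m2 (chi φ)) - r2c (fx M H φ))
      rw [sub_add_sub_cancel] at this
      linarith
    have hs' : -sg j = 1 ∨ -sg j = -1 := by
      rcases sg_cases j with h | h <;> simp [h]
    have u1 := hu _ f2 _ _ (sg_cases j) (sg_cases j) _ h3
    have u2 := hu _ f2 _ _ (sg_cases j) hs' _ h3
    have g4 := hg.2.2.2.2.2.1
    have g5 := hg.2.2.2.2.2.2
    rw [h1] at g4 g5
    refine ⟨T, g, v, hT ▸ hK, hx, hB, hg, LaCov.tri g4 u1 (by linarith),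
      LaCov.tri g5 u2 (by linarith), ?_, f4, ?_⟩
    · have : ‖(v.1.2 - r2c (fx M H φ)).1‖ ≤ μT / 2 := (norm_fst_le _).trans (h3.trans hb)
      exact this
    · have h4 : dist v.1 (((fK M H : ℝ) : ℂ), r2c (fx M H φ)) ≤ d / 2 := by
        rw [Prod.dist_eq, h1, dist_self, dist_eq_norm]
        exact max_le ((norm_nonneg _).trans (h3.trans hd)) (h3.trans hd)
      linarith [dist_triangle v.1 (((fK M H : ℝ) : ℂ), r2c (fx M H φ))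
        (((fK 1 H : ℝ) : ℂ), r2c (fx 1 H φ))]
  refine ⟨fun φ => ?_, fun hH => ?_⟩
  · obtain ⟨T, g, v, -, -, -, -, h4, h5, -⟩ := key φ
    exact ⟨h4, h5⟩
  · subst hH
    obtain ⟨-, -, p1, p2, p3, -⟩ := hO.pos
    exact LaCov.fam hO.half hsa p1 (p2.trans hμ) p3 j ((hξ j).comp hchi) key

end Pool.Agent.MP_1ba41f_an.S2
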