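import Pool.Agent.MP_1ba41f_an.S2.LA.Spec
import Pool.Agent.MP_1ba41f_an.S2.CV.Finz2

/-! Regularity of the three families of centre data and lengths. -/

noncomputable section
open Set Complex Metric Filter Topology

namespace Pool.Agent.MP_1ba41f_an.S2

namespace LaFam

/-- a holomorphic map composed with a real analytic curve -/
lemma ana_comp {X Y : Type} [NormedAddCommGroup X] [NormedSpace ℂ X] [NormedSpace ℝ X]
    [IsScalarTower ℝ ℂ X] [CompleteSpace X] [NormedAddCommGroup Y] [NormedSpace ℂ Y]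
    [NormedSpace ℝ Y] [IsScalarTower ℝ ℂ Y] [CompleteSpace Y] {W : Set X} (hW : IsOpen W)
    {F : X → Y} (hF : DifferentiableOn ℂ F W) {g : ℝ → X} {x : ℝ} (hg : AnalyticAt ℝ g x)
    (hx : g x ∈ W) : AnalyticAt ℝ (fun t => F (g t)) x := by
  obtain ⟨G, g1, g2⟩ := exists_hol_ext hg
  have g0 : G x = g x := g2.self_of_nhds
  have h1 : AnalyticAt ℂ (fun z => F (G z)) x := by
    refine Complex.analyticAt_iff_eventually_differentiableAt.2 ?_
    filter_upwards [g1.eventually_analyticAt,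
      g1.continuousAt.eventually (hW.mem_nhds (g0 ▸ hx))] with z a b
    exact (hF.differentiableAt (hW.mem_nhds b)).comp z a.differentiableAt
  have h2 : AnalyticAt ℝ (fun t : ℝ => F (G t)) x :=
    h1.restrictScalars.comp (f := fun θ : ℝ => (θ : ℂ)) (Complex.ofRealCLM.analyticAt _)
  exact h2.congr (g2.mono fun t ht => by simp only [ht])

lemma vA_ana (s : Sc) (j : Fin 3) (x : ℂ × Ws 15) :
    AnalyticAt ℝ (fun x : ℂ × Ws 15 => vA s x.1 x.2 j) x := by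
  have h1 : ∀ i, AnalyticAt ℝ (fun x : ℂ × Ws 15 => x.2.2.1 i) x := fun i =>
    analyticAt_pi_iff.1 (analyticAt_fst.comp (analyticAt_snd.comp analyticAt_snd)) i
  have h2 : ∀ i, AnalyticAt ℝ (fun x : ℂ × Ws 15 => x.2.2.2.1 i) x := fun i =>
    analyticAt_pi_iff.1
      (analyticAt_fst.comp (analyticAt_snd.comp (analyticAt_snd.comp analyticAt_snd))) i
  have h3 : AnalyticAt ℝ (fun x : ℂ × Ws 15 => x.2.1) x := analyticAt_fst.comp analyticAt_snd
  have c1 : ∀ (c : ℂ) i, AnalyticAt ℝ (fun x : ℂ × Ws 15 => c * x.2.2.1 i) x := fun c i =>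
    analyticAt_const.mul (h1 i)
  have h4 : AnalyticAt ℝ (fun x : ℂ × Ws 15 => (m3 s x.2).1) x :=
    (analyticAt_fst.comp h3).add (c1 _ 3)
  have h5 : AnalyticAt ℝ (fun x : ℂ × Ws 15 => (m3 s x.2).2) x :=
    (analyticAt_snd.comp h3).add (c1 _ 4)
  fin_cases j
  · exact (analyticAt_fst.prod h3).prod (((c1 _ 0).prod (analyticAt_const.mul (h2 0))).prod
      ((c1 _ 1).prod (c1 _ 2)))
  · exact (analyticAt_fst.prod (h4.prod h5.neg)).prod (((c1 _ 5).prod (c1 _ 8)).prod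
      ((c1 _ 6).prod (c1 _ 7)))
  · exact (analyticAt_fst.prod (h4.prod h5)).prod (((c1 _ 8).prod (c1 _ 5)).prod
      ((c1 _ 9).prod (c1 _ 10)))

lemma vA_cont (s : Sc) (j : Fin 3) : Continuous fun x : ℂ × Ws 15 => vA s x.1 x.2 j :=
  continuous_iff_continuousAt.2 fun x => (vA_ana s j x).continuousAt

variable {P : Type} [MetricSpace P] {m1 m2 : P → ℝ → ℝ} {h : P → ℝ → Fin 15 → ℝ}

lemma pt_cont (w : ℝ) (h1 : Pa m1) (h2 : Pa m2) (h3 : ∀ j, Pa fun p θ => h p θ j) :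
    Continuous fun x : P × ℝ => ptW w (m1 x.1) (m2 x.1) (h x.1) x.2 := by
  have a : ∀ (φ : ℝ → ℝ), Continuous φ →
      Continuous fun x : P × ℝ => fun j => (h x.1 (φ x.2) j : ℂ) := fun φ hφ =>
    continuous_pi fun j => continuous_ofReal.comp
      ((h3 j).cont.comp (continuous_fst.prodMk (hφ.comp continuous_snd)))
  exact ((continuous_ofReal.comp h1.cont).prodMk (continuous_ofReal.comp h2.cont)).prodMk
    ((a id continuous_id).prodMk ((a (fun θ => -θ) continuous_neg).prodMk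
      (a (fun θ => -θ - w) (by fun_prop))))

lemma pt_ana (w : ℝ) (h1 : Pa m1) (h2 : Pa m2) (h3 : ∀ j, Pa fun p θ => h p θ j) (p : P) (θ : ℝ) :
    AnalyticAt ℝ (ptW w (m1 p) (m2 p) (h p)) θ := by
  have a : ∀ (φ : ℝ → ℝ), AnalyticAt ℝ φ θ →
      AnalyticAt ℝ (fun t : ℝ => fun j => (h p (φ t) j : ℂ)) θ := fun φ hφ =>
    analyticAt_pi_iff.2 fun j => (ofRealCLM.analyticAt _).comp
      (((h3 j).ana p (φ θ) (mem_univ _)).comp hφ)
  exact (((ofRealCLM.analyticAt _).comp (h1.ana p θ (mem_univ _))).prod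
    ((ofRealCLM.analyticAt _).comp (h2.ana p θ (mem_univ _)))).prod
    ((a id analyticAt_id).prod ((a (fun θ => -θ) analyticAt_id.neg).prod
      (a (fun θ => -θ - w) (analyticAt_id.neg.sub analyticAt_const))))

lemma pt_per (w : ℝ) (h1 : Pa m1) (h2 : Pa m2) (h3 : ∀ j, Pa fun p θ => h p θ j) (p : P) (θ : ℝ) :
    ptW w (m1 p) (m2 p) (h p) (θ + 2 * Real.pi) = ptW w (m1 p) (m2 p) (h p) θ := by
  have a : ∀ t, h p (t + 2 * Real.pi) = h p t := fun t => funext fun j => (h3 j).per p t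
  have b : h p (-(θ + 2 * Real.pi)) = h p (-θ) := by rw [← a]; congr 1; ring
  have c : h p (-(θ + 2 * Real.pi) - w) = h p (-θ - w) := by rw [← a]; congr 1; ring
  rw [ptW, ptW, h1.per, h2.per, a, b, c]

lemma norm_ofReal_pi (u : Fin 15 → ℝ) : ‖(fun j => (u j : ℂ) : Hh 15)‖ = ‖u‖ := by
  simp only [Pi.norm_def, nnnorm_real]

end LaFam

open LaFam in
theorem laFam (hA : AlgAStmt) (h0 : BaseStmt) : LaFamStmt := by
  intro s1 c0 c1 sa e1 d B μ μL a e η S w s n K enc arc hsa hO hs hrm P _ κ m1 m2 h hκ h1 h2 h3 hS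
  have hz : ∀ p θ, ‖(ptW w (m1 p) (m2 p) (h p) θ).2.1‖ < 1 := fun p θ =>
    (norm_ofReal_pi (h p θ)).trans_lt ((hS p).mem θ).2
  have hv : ∀ p θ j, vA s (κ p) (ptW w (m1 p) (m2 p) (h p) θ) j ∈ DV d s.R s.rH := fun p θ j =>
    vA_mem h0 hs (z := ptW w (m1 p) (m2 p) (h p) θ) ((hS p).mem θ).1 (hz p θ)
      ((norm_ofReal_pi (h p (-θ))).trans_lt ((hS p).mem (-θ)).2) j
  have hr : ∀ p θ j, RealV (vA s (κ p) (ptW w (m1 p) (m2 p) (h p) θ) j) := fun p θ j => by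
    rw [ptW]; exact vA_real s _ _ _ _ _ j
  have hE := fun p θ j => real_end hA hsa hO j (hv p θ j) (hr p θ j)
  obtain ⟨-, -, hη0, -, -, hη1, hη2⟩ := hO.pos
  refine ⟨fun j => ?_, fun p => ⟨⟨fun j => ?_, fun j θ => ?_, fun j θ => ?_, fun j θ => ?_,
    fun j t ht => ?_⟩, fun j θ => (hE p θ j).2.1⟩⟩
  · obtain ⟨W, -, hW, d1, d2, -⟩ := hO.hol j
    have hc : Continuous fun x : P × ℝ => vA s (κ x.1) (ptW w (m1 x.1) (m2 x.1) (h x.1) x.2) j :=
      (vA_cont s j).comp ((continuous_ofReal.comp (hκ.comp continuous_fst)).prodMk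
        (pt_cont w h1 h2 h3))
    exact ⟨d1.continuousOn.comp_continuous hc fun x => hW (hv _ _ j),
      continuous_re.comp (d2.continuousOn.comp_continuous hc fun x => hW (hv _ _ j))⟩
  · obtain ⟨W, oW, hW, d1, d2, -⟩ := hO.hol j
    have ha : ∀ θ, AnalyticAt ℝ (fun θ => vA s (κ p) (ptW w (m1 p) (m2 p) (h p) θ) j) θ :=
      fun θ => (vA_ana s j _).comp (f := fun θ => (((κ p : ℝ) : ℂ), ptW w (m1 p) (m2 p) (h p) θ))
        (analyticAt_const.prod (pt_ana w h1 h2 h3 p θ))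
    exact ⟨fun θ _ => ana_comp oW d1 (ha θ) (hW (hv p θ j)),
      fun θ _ => (reCLM.analyticAt _).comp (ana_comp oW d2 (ha θ) (hW (hv p θ j)))⟩
  · simp only [xiA, TA, pt_per w h1 h2 h3, and_self]
  · obtain ⟨hK, -, -, -, h40, -⟩ := hO.est j _ (hv p θ j)
    obtain ⟨eT, hT, hx, -⟩ := hE p θ j
    refine ⟨by rw [xiA, TA, ← eT]; exact hK, hx, hsa.trans_le hT, lt_of_lt_of_le ?_ h40⟩
    nlinarith
  · obtain ⟨hK, -, -, -, -, -, hk, -, -, -, -, -, hT⟩ := hO.est j _ (hv p θ j)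
    obtain ⟨T, g, eT', hg, hg'⟩ := hT (hr p θ j)
    rw [← eT'] at hg
    obtain ⟨eT, -⟩ := hE p θ j
    rw [xiA, TA, ← eT]
    refine ⟨hk.1, hk.2.2.1, ?_⟩
    have n1 := (norm_le_pi_norm _ 8).trans (hO.half.near _ hK g hg 1 ⟨zero_le_one, le_rfl⟩)
    have n0 := (norm_le_pi_norm _ 8).trans (hO.half.near _ hK g hg 0 ⟨le_rfl, zero_le_one⟩)
    have g0 : g 0 8 = 0 := by rw [hg.1]; rfl
    simp only [ofReal_one, one_mul, ofReal_zero, zero_mul, Pi.sub_apply, g0, sub_zero] at n1 n0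
    have b1 := abs_le.1 ((abs_re_le_norm _).trans n1)
    have b0 := abs_le.1 ((abs_re_le_norm _).trans n0)
    have := hg'.2.1
    rw [sub_re] at b1 ⊢
    linarith [b1.1, b0.2]
  · obtain ⟨hK, -, -, -, -, -, -, -, -, -, -, -, hT⟩ := hO.est j _ (hv p 0 j)
    obtain ⟨T, g, eT, hg, hg'⟩ := hT (hr p 0 j)
    rw [← eT] at hg
    have hT0 : 0 < T := hsa.trans_le hg'.1
    have m0 : m2 p 0 = 0 := by
      have := ((hS p).par 0).2
      rw [neg_zero] at this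
      linarith
    have z0 : (ptW w (m1 p) (m2 p) (h p) 0).1.2 = 0 := by
      change ((m2 p 0 : ℝ) : ℂ) = 0
      rw [m0, ofReal_zero]
    have z3 : ‖(m3 s (ptW w (m1 p) (m2 p) (h p) 0)).2‖ ≤ c1 := by
      have := (norm_snd_le _).trans (m3_near hs.pos.2.2.2.1 (hz p 0)).le
      rw [Prod.snd_sub, z0, sub_zero] at this
      exact this.trans hrm
    have hc : ‖(vA s (κ p) (ptW w (m1 p) (m2 p) (h p) 0) j).1.2.2‖ ≤ c1 := by
      fin_cases j
      · change ‖(ptW w (m1 p) (m2 p) (h p) 0).1.2‖ ≤ c1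
        rw [z0, norm_zero]; linarith
      · change ‖-(m3 s (ptW w (m1 p) (m2 p) (h p) 0)).2‖ ≤ c1
        rw [norm_neg]; exact z3
      · exact z3
    rw [TA, eT, ofReal_re] at ht
    have hu : t / T ∈ Icc (0 : ℝ) 1 := ⟨div_nonneg ht.1 hT0.le, (div_le_one hT0).2 ht.2⟩
    have nr := hO.half.near _ hK g hg _ hu
    have e2 : ((t / T : ℝ) : ℂ) * TN n j (vA s (κ p) (ptW w (m1 p) (m2 p) (h p) 0) j) = t := by
      rw [eT, ← ofReal_mul, div_mul_cancel₀ _ hT0.ne']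
    simp only [e2] at nr
    obtain ⟨b0, b4⟩ := hg'.2.2.1 hc _ hu
    have key : ∀ i, c1 ≤ ‖g (t / T) i‖ →
        arc (xiA s a n w (κ p) (m1 p) (m2 p) (h p) j 0, t) i ≠ 0 := fun i hi hz => by
      have := (norm_le_pi_norm _ i).trans nr
      rw [xiA] at hz
      rw [Pi.sub_apply, hz, zero_sub, norm_neg] at this
      linarith
    exact ⟨key 0 b0, key 4 b4⟩

end Pool.Agent.MP_1ba41f_an.S2
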