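import Mathlib
import Pool.Agent.MP_1ba41f_an.S2.LA.Spec

/-! The matching equations are small holomorphic perturbations. -/

noncomputable section
open Set Complex Metric

namespace Pool.Agent.MP_1ba41f_an.S2

namespace Hol

/-- the domain of the arguments -/
def Dom (s : Sc) : Set (ℂ × Ws 15) :=
  {q | (q.1, q.2.1) ∈ thickening (s.D / 2) B1 ∧ ‖q.2.2.1‖ < 1 ∧ ‖q.2.2.2.1‖ < 1 ∧ ‖q.2.2.2.2‖ < 1}

/-- holomorphic in all arguments and real on real points -/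
structure Reg (s : Sc) (F : ℂ → Ws 15 → ℂ) : Prop where
  diff : DifferentiableOn ℂ (fun q : ℂ × Ws 15 => F q.1 q.2) (Dom s)
  real : ∀ (κ : ℝ) x h0 h1 h2, ((κ : ℂ), rw3 x h0 h1 h2) ∈ Dom s → (F κ (rw3 x h0 h1 h2)).im = 0

variable {s : Sc} {F G : ℂ → Ws 15 → ℂ}

theorem Reg.add (h : Reg s F) (k : Reg s G) : Reg s fun κ z => F κ z + G κ z :=
  ⟨h.diff.add k.diff, fun κ x a b c m => by
    rw [add_im, h.real κ x a b c m, k.real κ x a b c m, add_zero]⟩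

theorem Reg.neg (h : Reg s F) : Reg s fun κ z => -F κ z :=
  ⟨h.diff.neg, fun κ x a b c m => by rw [neg_im, h.real κ x a b c m, neg_zero]⟩

theorem Reg.sub (h : Reg s F) (k : Reg s G) : Reg s fun κ z => F κ z - G κ z :=
  ⟨h.diff.sub k.diff, fun κ x a b c m => by
    rw [sub_im, h.real κ x a b c m, k.real κ x a b c m, sub_zero]⟩

theorem Reg.mul (h : Reg s F) (t : ℝ) : Reg s fun κ z => t * F κ z :=
  ⟨h.diff.const_mul _, fun κ x a b c m => by simp [h.real κ x a b c m]⟩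

theorem Reg.div (h : Reg s F) {t : ℂ} (ht : t.im = 0) : Reg s fun κ z => F κ z / t :=
  ⟨by simp only [div_eq_mul_inv]; exact h.diff.mul_const _,
    fun κ x a b c m => by simp [div_im, h.real κ x a b c m, ht]⟩

theorem reg1 (i : Fin 15) : Reg s fun _ z => z.2.1 i :=
  ⟨by fun_prop, fun κ x a b c _ => by simp [rw3]⟩

theorem reg3 (i : Fin 15) : Reg s fun _ z => z.2.2.2 i :=
  ⟨by fun_prop, fun κ x a b c _ => by simp [rw3]⟩

theorem reg_cmp {g : ℂ → C2 → C2} {Ok : ℂ → C2 → Prop} {U : ℂ → Ws 15 → C2}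
    (hg : DifferentiableOn ℂ (fun x : ℂ × C2 => g x.1 x.2) {x | Ok x.1 x.2})
    (hr : ∀ κ z, κ.im = 0 → RealC2 z → Ok κ z → RealC2 (g κ z))
    (h1 : Reg s fun κ z => (U κ z).1) (h2 : Reg s fun κ z => (U κ z).2)
    (hz : ∀ q ∈ Dom s, Ok q.1 (U q.1 q.2)) :
    Reg s (fun κ z => (g κ (U κ z)).1) ∧ Reg s fun κ z => (g κ (U κ z)).2 := by
  have d1 : DifferentiableOn ℂ (fun q : ℂ × Ws 15 => g q.1 (U q.1 q.2)) (Dom s) :=
    hg.comp (f := fun q : ℂ × Ws 15 => (q.1, U q.1 q.2))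
      (differentiableOn_fst.prodMk (h1.diff.prodMk h2.diff)) hz
  have r : ∀ (κ : ℝ) x b0 b1 b2, ((κ : ℂ), rw3 x b0 b1 b2) ∈ Dom s →
      RealC2 (g κ (U κ (rw3 x b0 b1 b2))) := fun κ x b0 b1 b2 m =>
    hr κ _ (ofReal_im κ) ⟨h1.real κ x b0 b1 b2 m, h2.real κ x b0 b1 b2 m⟩ (hz _ m)
  exact ⟨⟨d1.fst, fun κ x b0 b1 b2 m => (r κ x b0 b1 b2 m).1⟩,
    d1.snd, fun κ x b0 b1 b2 m => (r κ x b0 b1 b2 m).2⟩

theorem holW {P : Type} [MetricSpace P] {κ : P → ℝ} {O : P → Set C2} (hκ : Continuous κ)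
    (hO : ∀ p, ∀ m ∈ O p, ((κ p : ℂ), m) ∈ thickening (s.D / 2) B1) {μ : ℝ} (h : Reg s F)
    (hb : ∀ q ∈ Dom s, ‖F q.1 q.2‖ ≤ μ) : HolW O μ fun p z => F (κ p) z := by
  have m : ∀ p, ∀ z ∈ DomW (O p), ((κ p : ℂ), z) ∈ Dom s := fun p z hz => ⟨hO p _ hz.1, hz.2⟩
  refine ⟨?_, fun p => ?_, fun p z hz => hb _ (m p z hz),
    fun p x a b c hz => h.real _ x a b c (m p _ hz)⟩
  · exact h.diff.continuousOn.comp (f := fun q : P × Ws 15 => ((κ q.1 : ℂ), q.2))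
      (by fun_prop) fun q hq => m q.1 q.2 hq
  · exact h.diff.comp (f := fun z : Ws 15 => ((κ p : ℂ), z)) (by fun_prop) (m p)

theorem vA_fst (κ : ℂ) (z : Ws 15) (j : Fin 3) : (vA s κ z j).1.1 = κ := by
  fin_cases j <;> rfl

theorem vA_diff (j : Fin 3) : Differentiable ℂ fun q : ℂ × Ws 15 => vA s q.1 q.2 j := by
  fin_cases j <;> simp only [vA, m3, Gm, Fin.zero_eta, Fin.mk_one, Fin.reduceFinMk,
    Matrix.cons_val] <;> fun_prop

theorem nd {x t : ℂ} {b r μ : ℝ} (hx : ‖x‖ ≤ b) (hr : 0 < r) (ht : r ≤ ‖t‖) (h : b ≤ μ * r) :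
    ‖x / t‖ ≤ μ := by
  have hμ : 0 ≤ μ := nonneg_of_mul_nonneg_left (((norm_nonneg x).trans hx).trans h) hr
  rw [norm_div, div_le_iff₀ (hr.trans_le ht)]
  exact (hx.trans h).trans (mul_le_mul_of_nonneg_left ht hμ)

theorem nr {r : ℝ} (hr : 0 < r) : r ≤ ‖(r : ℂ)‖ := by
  rw [norm_real, Real.norm_of_nonneg hr.le]

theorem nr2 {r : ℝ} (hr : 0 < r) : 2 * r ≤ ‖2 * (r : ℂ)‖ := by
  simpa using nr hr

theorem npi : 2 ≤ ‖2 * (Real.pi : ℂ)‖ :=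
  le_trans (by linarith [Real.pi_gt_three]) (nr2 Real.pi_pos)

theorem n2' : (2 : ℝ) ≤ ‖(2 : ℂ)‖ := by simp

theorem na {x y : ℂ} {b : ℝ} (hx : ‖x‖ ≤ b) (hy : ‖y‖ ≤ b) : ‖x + y‖ ≤ 2 * b := by
  linarith [norm_add_le x y]

theorem ns {x y : ℂ} {b : ℝ} (hx : ‖x‖ ≤ b) (hy : ‖y‖ ≤ b) : ‖x - y‖ ≤ 2 * b := by
  linarith [norm_sub_le x y]

theorem nn' {x : ℂ} {b : ℝ} (hx : ‖x‖ ≤ b) : ‖-x‖ ≤ b := by rwa [norm_neg]

theorem nm {x : ℂ} {b r : ℝ} (hr : 0 < r) (hx : ‖x‖ ≤ b) : ‖r * x‖ ≤ r * b := by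
  rw [norm_mul, norm_real, Real.norm_of_nonneg hr.le]
  exact mul_le_mul_of_nonneg_left hx hr.le

section Data

variable {s1 : ℝ → ℝ} {c0 c1 sa e1 d B μ μL a e η S : ℝ} {n : ℕ} {K : Set (Xi × ℂ)}
  {enc : Xi × ℂ → En} {arc : Xi × ℂ → Az}

theorem mem (h0 : BaseStmt) (hs : ScOk s d B μ μL) {q : ℂ × Ws 15} (hq : q ∈ Dom s) (j : Fin 3) :
    vA s q.1 q.2 j ∈ DV d s.R s.rH := vA_mem h0 hs hq.1 hq.2.1 hq.2.2.1 j

theorem est (h0 : BaseStmt) (h : OutData s1 c0 c1 sa e1 d B s.R μ s.rH a e η S n K enc arc)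
    (hs : ScOk s d B μ μL) {q : ℂ × Ws 15} (hq : q ∈ Dom s) (j : Fin 3) :
    OkM q.1 (vA s q.1 q.2 j).1.2 ∧ OkA j q.1 (endN a n arc j (vA s q.1 q.2 j)) ∧
      ‖rH' s a n arc q.1 q.2 j‖ ≤ μ * s.rH ∧ ‖rK s a n arc q.1 q.2 j‖ ≤ μ ∧
      ‖uvA s a n arc q.1 q.2 j - PP (sg j) q.1 (vA s q.1 q.2 j).1.2‖ ≤ μ ∧
      ‖rS s a n arc q.1 q.2 j‖ ≤ μ ∧ ‖rP s a n arc q.1 q.2 j‖ ≤ B := by
  obtain ⟨-, -, h1, -, -, -, h2, h3, h4, h5, h6, h7, -⟩ := h.est j _ (mem h0 hs hq j)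
  rw [vA_fst] at h1 h2 h3 h4 h5 h6 h7
  exact ⟨h1, h2, h3, h4, h5, h6, h7⟩

theorem reg_l (hA : AlgAStmt) (hI : InjStmt) (h0 : BaseStmt) (hsa : 0 < sa)
    (h : OutData s1 c0 c1 sa e1 d B s.R μ s.rH a e η S n K enc arc) (hs : ScOk s d B μ μL)
    (j : Fin 3) (i : Fin 6) : Reg s fun κ z => lA s a n arc κ z j i := by
  obtain ⟨W, -, hW, -, -, hd⟩ := h.hol j
  refine ⟨?_, fun κ x h0' h1 h2 m => ?_⟩
  · have := hd.comp (vA_diff (s := s) j).differentiableOn fun q hq => hW (mem h0 hs hq j)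
    simp only [Function.comp_def, vA_fst] at this
    exact differentiableOn_pi.1 this i
  · exact (hI a κ h.pos.1 h.pos.2.1 (ofReal_im κ)).1 j _
      (real_end hA hsa h j (mem h0 hs m j) (vA_real s κ x h0' h1 h2 j)).2.2.2.1
      (est h0 h hs m j).2.1 i

theorem reg_u (hA : AlgAStmt) (hI : InjStmt) (h0 : BaseStmt) (hsa : 0 < sa)
    (h : OutData s1 c0 c1 sa e1 d B s.R μ s.rH a e η S n K enc arc) (hs : ScOk s d B μ μL)
    (j : Fin 3) : Reg s (fun κ z => (uvA s a n arc κ z j).1) ∧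
      Reg s fun κ z => (uvA s a n arc κ z j).2 := by
  have l2 := reg_l hA hI h0 hsa h hs j 2
  have l3 := reg_l hA hI h0 hsa h hs j 3
  simp only [lA, LL, Matrix.cons_val] at l2 l3
  exact ⟨l2, l3⟩

theorem reg_r (hA : AlgAStmt) (hI : InjStmt) (h0 : BaseStmt) (hsa : 0 < sa)
    (h : OutData s1 c0 c1 sa e1 d B s.R μ s.rH a e η S n K enc arc) (hs : ScOk s d B μ μL)
    (j : Fin 3) : Reg s (fun κ z => rH' s a n arc κ z j) ∧ Reg s (fun κ z => rK s a n arc κ z j) ∧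
      Reg s (fun κ z => rS s a n arc κ z j) ∧ Reg s fun κ z => rP s a n arc κ z j := by
  have l := reg_l hA hI h0 hsa h hs j
  have v := vA_diff (s := s) j
  have r := fun (κ : ℝ) x h0 h1 h2 => vA_real s κ x h0 h1 h2 j
  have t : Reg s fun κ z => (vA s κ z j).2.1.1 :=
    ⟨v.snd.fst.fst.differentiableOn, fun κ x a b c _ => (r κ x a b c).2.2.1⟩
  refine ⟨⟨((l 0).diff.sub_const _).sub v.snd.snd.fst.differentiableOn, fun κ x b0 b1 b2 m => ?_⟩,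
    Reg.sub ⟨(l 1).diff.sub_const _, fun κ x b0 b1 b2 m => ?_⟩ t,
    (l 4).sub ⟨v.snd.snd.snd.differentiableOn, fun κ x a b c _ => (r κ x a b c).2.2.2.2.2⟩,
    (l 5).sub (t.mul _)⟩
  · have h1 : (hn a n + (vA s κ (rw3 x b0 b1 b2) j).2.2.1).im = 0 :=
      yN_real (a := a) (mem h0 hs m j) (r κ x b0 b1 b2) h.big 1
    rw [rH', sub_sub, sub_im, h1, (l 0).real κ x b0 b1 b2 m, sub_zero]
  · rw [sub_im, (l 1).real κ x b0 b1 b2 m, natCast_im, sub_zero]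

theorem reg_q (hA : AlgAStmt) (hM : AlgMStmt) (hN : AnaStmt) (hI : InjStmt) (h0 : BaseStmt)
    (hsa : 0 < sa) (h : OutData s1 c0 c1 sa e1 d B s.R μ s.rH a e η S n K enc arc)
    (hs : ScOk s d B μ μL) (j : Fin 3) (σ : ℝ) :
    Reg s (fun κ z => (QQ σ κ (uvA s a n arc κ z j)).1) ∧
      Reg s fun κ z => (QQ σ κ (uvA s a n arc κ z j)).2 := by
  obtain ⟨l2, l3⟩ := reg_u hA hI h0 hsa h hs j
  exact reg_cmp (g := QQ σ) (Ok := OkZ) (U := fun κ z => uvA s a n arc κ z j) (hN.2.1.2.1 σ)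
    (fun κ z k1 k2 k3 => (hM.2.2.1 κ z k1 k2 k3).1 σ) l2 l3
    fun q hq => (est h0 h hs hq j).2.1.2.2.2.2.2.2.2.2.2.1

theorem reg_f (hA : AlgAStmt) (hM : AlgMStmt) (hN : AnaStmt) (hI : InjStmt) (h0 : BaseStmt)
    (hsa : 0 < sa) (h : OutData s1 c0 c1 sa e1 d B s.R μ s.rH a e η S n K enc arc)
    (hs : ScOk s d B μ μL) :
    Reg s (fun κ z => (fA s a n arc κ z).1) ∧ Reg s fun κ z => (fA s a n arc κ z).2 := by
  obtain ⟨l2, l3⟩ := reg_u hA hI h0 hsa h hs 2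
  obtain ⟨p1, p2⟩ := reg_cmp (s := s) (g := PP 1) (Ok := OkM) (U := fun _ z => z.1)
    (hN.1.2 1 (Or.inl rfl)).1 (fun κ z k1 k2 k3 => (hM.2.1 1 κ z k1 k2 k3).1)
    ⟨by fun_prop, fun _ _ _ _ _ _ => ofReal_im _⟩ ⟨by fun_prop, fun _ _ _ _ _ _ => ofReal_im _⟩
    fun q hq => (est h0 h hs hq 0).1
  simp only [fA, Prod.fst_sub, Prod.snd_sub]
  exact ⟨l2.sub p1, l3.sub p2⟩

theorem bd_f (h0 : BaseStmt) (h : OutData s1 c0 c1 sa e1 d B s.R μ s.rH a e η S n K enc arc)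
    (hs : ScOk s d B μ μL) {q : ℂ × Ws 15} (hq : q ∈ Dom s) : ‖fA s a n arc q.1 q.2‖ ≤ μL := by
  have hr := hs.pos.2.2.2.1
  have h1 : ‖uvA s a n arc q.1 q.2 2 - PP 1 q.1 (m3 s q.2)‖ ≤ μ := by
    simpa [sg, vA] using (est h0 h hs hq 2).2.2.2.2.1
  have h2 := hs.up _ (thickening_subset_cthickening _ _ (vA_thick h0 hr hs.le.2.1 hq.1 hq.2.1 0))
    _ (m3_near hr hq.2.1).le
  have h3 := norm_sub_le_norm_sub_add_norm_sub (uvA s a n arc q.1 q.2 2) (PP 1 q.1 (m3 s q.2))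
    (PP 1 q.1 q.2.1)
  have h4 : ‖PP 1 q.1 (m3 s q.2) - PP 1 q.1 q.2.1‖ ≤ μL / 2 := h2
  have := hs.half
  unfold fA
  linarith

theorem bd_q (h0 : BaseStmt) (h : OutData s1 c0 c1 sa e1 d B s.R μ s.rH a e η S n K enc arc)
    (hs : ScOk s d B μ μL) {q : ℂ × Ws 15} (hq : q ∈ Dom s) (j : Fin 3) :
    ‖QQ (sg j) q.1 (uvA s a n arc q.1 q.2 j) - (vA s q.1 q.2 j).1.2‖ ≤ μL * s.rm / 2 := by
  have := hs.uq _ (thickening_subset_cthickening _ _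
    (vA_thick h0 hs.pos.2.2.2.1 hs.le.2.1 hq.1 hq.2.1 j)) (sg j) (sg_cases j)
    (uvA s a n arc q.1 q.2 j) (by rw [vA_fst]; exact (est h0 h hs hq j).2.2.2.2.1)
  rwa [vA_fst] at this

theorem bd_g (h0 : BaseStmt) (h : OutData s1 c0 c1 sa e1 d B s.R μ s.rH a e η S n K enc arc)
    (hs : ScOk s d B μ μL) {q : ℂ × Ws 15} (hq : q ∈ Dom s) (j : Fin 15) :
    ‖GA s a n arc q.1 q.2 j‖ ≤ μL := by
  obtain ⟨pR, pH, pD, pr, pq, pP, pB, pμ, pL⟩ := hs.pos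
  obtain ⟨-, -, l1, l2, l3, l4, l5, l6⟩ := hs.le
  have l7 := hs.half
  obtain ⟨-, -, H0, K0, -, S0, P0⟩ := est h0 h hs hq 0
  obtain ⟨-, -, H1, K1, -, S1, P1⟩ := est h0 h hs hq 1
  obtain ⟨-, -, H2, K2, -, S2, P2⟩ := est h0 h hs hq 2
  have z1 : ∀ i, ‖q.2.2.1 i‖ ≤ 1 := fun i => (norm_le_pi_norm _ i).trans hq.2.1.le
  have z3 : ∀ i, ‖q.2.2.2.2 i‖ ≤ 1 := fun i => (norm_le_pi_norm _ i).trans hq.2.2.2.le
  have i1 : μL * s.q ≤ s.q := mul_le_of_le_one_left pq.le l1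
  have i2 : μL * s.Bp ≤ s.Bp := mul_le_of_le_one_left pP.le l1
  have a1 : ‖-(rP s a n arc q.1 q.2 0 + rP s a n arc q.1 q.2 1) / (2 * Real.pi)‖ ≤ B :=
    nd (nn' (na P0 P1)) two_pos npi (by linarith)
  have a2 : ‖(rK s a n arc q.1 q.2 0 - rK s a n arc q.1 q.2 1) / 2‖ ≤ μ :=
    nd (ns K0 K1) two_pos n2' (by linarith)
  have a3 : 2 * (μ * s.rH) ≤ μL * (2 * s.rH) := by nlinarith
  have a4 : ‖-(rS s a n arc q.1 q.2 0 + rS s a n arc q.1 q.2 1) / (2 * s.D)‖ ≤ μL :=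
    nd (nn' (na S0 S1)) (by positivity) (nr2 pD) (by linarith)
  have q0 : ‖QQ (-1) q.1 (uvA s a n arc q.1 q.2 0) - q.2.1‖ ≤ μL * s.rm / 2 := by
    simpa [sg, vA] using bd_q h0 h hs hq 0
  have q1 : ‖QQ 1 q.1 (uvA s a n arc q.1 q.2 1) - Gm (m3 s q.2)‖ ≤ μL * s.rm / 2 := by
    simpa [sg, vA] using bd_q h0 h hs hq 1
  have r0 : (s.rm : ℂ) ≠ 0 := ofReal_ne_zero.2 pr.ne'
  fin_cases j
  · exact nd ((norm_sub_le _ _).trans (add_le_add a1 a2)) pR (nr pR) (by linarith)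
  · exact nd (nn' (ns H0 H1)) (by positivity) (nr2 pH) a3
  · exact a4
  · refine le_of_eq_of_le (congrArg norm ?_) (nd (ns ((norm_fst_le _).trans q0)
      ((norm_fst_le _).trans q1)) pr (nr pr) (by linarith))
    show q.2.2.1 3 + _ / (s.rm : ℂ) = _
    simp only [Gm, m3, Prod.fst_sub, Prod.fst_add, Prod.smul_fst, smul_eq_mul]
    field_simp
    ring
  · refine le_of_eq_of_le (congrArg norm ?_) (nd (na ((norm_snd_le _).trans q0)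
      ((norm_snd_le _).trans q1)) pr (nr pr) (by linarith))
    show q.2.2.1 4 + _ / (s.rm : ℂ) = _
    simp only [Gm, m3, Prod.snd_sub, Prod.snd_add, Prod.smul_snd, smul_eq_mul]
    field_simp
    ring
  · exact nd ((norm_add_le _ _).trans (add_le_add a1 a2)) pR (nr pR) (by linarith)
  · exact nd (ns H0 H1) (by positivity) (nr2 pH) a3
  · exact a4
  · have b1 : ‖-(s.Bp * (q.2.2.1 14 + q.2.2.2.2 14)) / (2 * Real.pi)‖ ≤ s.Bp :=
      nd (nn' (nm pP (na (z1 14) (z3 14)))) two_pos npi (by linarith)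
    have b2 : ‖s.q * (q.2.2.1 12 - q.2.2.2.2 12) / 2‖ ≤ s.q :=
      nd (nm pq (ns (z1 12) (z3 12))) two_pos n2' (by linarith)
    exact nd ((norm_sub_le _ _).trans (add_le_add b1 b2)) pR (nr pR) (by linarith)
  · exact nd (nn' (nm pq (ns (z1 11) (z3 11)))) two_pos n2' (by linarith)
  · exact nd (nn' (nm pq (na (z1 13) (z3 13)))) (by positivity) (nr2 pD) (by linarith)
  · refine nd H2 (mul_pos pH pq) (by simpa using nr (mul_pos pH pq)) ?_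
    nlinarith
  · exact nd K2 pq (nr pq) l4
  · exact nd S2 pq (nr pq) l4
  · exact nd P2 pP (nr pP) l5

theorem reg_g (hA : AlgAStmt) (hM : AlgMStmt) (hN : AnaStmt) (hI : InjStmt) (h0 : BaseStmt)
    (hsa : 0 < sa) (h : OutData s1 c0 c1 sa e1 d B s.R μ s.rH a e η S n K enc arc)
    (hs : ScOk s d B μ μL) (j : Fin 15) : Reg s fun κ z => GA s a n arc κ z j := by
  obtain ⟨H0, K0, S0, P0⟩ := reg_r hA hI h0 hsa h hs 0
  obtain ⟨H1, K1, S1, P1⟩ := reg_r hA hI h0 hsa h hs 1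
  obtain ⟨H2, K2, S2, P2⟩ := reg_r hA hI h0 hsa h hs 2
  obtain ⟨Q0, Q0'⟩ := reg_q hA hM hN hI h0 hsa h hs 0 (-1)
  obtain ⟨Q1, Q1'⟩ := reg_q hA hM hN hI h0 hsa h hs 1 1
  have t : ∀ r : ℝ, (2 * (r : ℂ)).im = 0 := fun r => by simp
  have t2 : (2 : ℂ).im = 0 := by simp
  fin_cases j
  · exact (((P0.add P1).neg.div (t _)).sub ((K0.sub K1).div t2)).div (ofReal_im _)
  · exact (H0.sub H1).neg.div (t _)
  · exact (S0.add S1).neg.div (t _)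
  · exact (reg1 3).add ((Q0.sub Q1).div (ofReal_im _))
  · exact (reg1 4).add ((Q0'.add Q1').div (ofReal_im _))
  · exact (((P0.add P1).neg.div (t _)).add ((K0.sub K1).div t2)).div (ofReal_im _)
  · exact (H0.sub H1).div (t _)
  · exact (S0.add S1).neg.div (t _)
  · exact (((((reg1 14).add (reg3 14)).mul _).neg.div (t _)).sub
      ((((reg1 12).sub (reg3 12)).mul _).div t2)).div (ofReal_im _)
  · exact (((reg1 11).sub (reg3 11)).mul _).neg.div t2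
  · exact (((reg1 13).add (reg3 13)).mul _).neg.div (t _)
  · exact H2.div (t := s.rH * s.q) (by simp)
  · exact K2.div (ofReal_im _)
  · exact S2.div (ofReal_im _)
  · exact P2.div (ofReal_im _)

end Data

end Hol

open Hol

theorem laHol (hA : AlgAStmt) (hM : AlgMStmt) (hN : AnaStmt) (hI : InjStmt) (h0 : BaseStmt) :
    LaHolStmt := by
  intro s1 c0 c1 sa e1 d B μ μL a e η S s n K enc arc hsa h hs P _ κ O hκ hO
  obtain ⟨f1, f2⟩ := reg_f hA hM hN hI h0 hsa h hs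
  exact ⟨holW hκ hO f1 fun q hq => (norm_fst_le _).trans (bd_f h0 h hs hq),
    holW hκ hO f2 fun q hq => (norm_snd_le _).trans (bd_f h0 h hs hq),
    fun j => holW hκ hO (reg_g hA hM hN hI h0 hsa h hs j) fun q hq => bd_g h0 h hs hq j⟩

end Pool.Agent.MP_1ba41f_an.S2
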