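import Mathlib
import Pool.Agent.MP_1ba41f_an.S2.LA.Spec

/-! A solution of the matching equations gives matched families. -/

noncomputable section
open Set Complex Metric
open scoped ComplexConjugate

namespace Pool.Agent.MP_1ba41f_an.S2

namespace LaMatch

theorem ham_rot (a e : ℝ) {x y : St} (h : Rot (mir x) y) : ham a e x = ham a e y := by
  obtain ⟨u, hu, h⟩ := h
  have h1 : conj x.1.1 = u * y.1.1 := congrArg (fun t : St => t.1.1) h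
  have h2 : conj x.1.2 = u * y.1.2 := congrArg (fun t : St => t.1.2) h
  have h3 : -conj x.2.1 = u * y.2.1 := congrArg (fun t : St => t.2.1) h
  have h4 : -conj x.2.2 = u * y.2.2 := congrArg (fun t : St => t.2.2) h
  have k : ∀ p q : ℂ, conj p = u * q → ‖p‖ = ‖q‖ := fun p q e => by
    rw [← norm_conj p, e, norm_mul, hu, one_mul]
  have k' : ∀ p q : ℂ, -conj p = u * q → ‖p‖ = ‖q‖ := fun p q e => by
    rw [← norm_conj p, ← norm_neg, e, norm_mul, hu, one_mul]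
  have e5 := k (x.1.2 - x.1.1) (y.1.2 - y.1.1) (by rw [map_sub, h1, h2]; ring)
  have e6 := k' (a * x.2.1 + (1 - a) * x.2.2) (a * y.2.1 + (1 - a) * y.2.2) (by
    simp only [map_add, map_mul, map_sub, map_one, conj_ofReal]
    linear_combination a * h3 + (1 - a) * h4)
  unfold ham
  rw [k _ _ h1, k _ _ h2, k' _ _ h3, k' _ _ h4, e5, e6]

theorem sq_real {D : ℂ} (h : conj D = D) (hp : 0 < D.re) : conj (sq D) = sq D := by
  have h1 : D = (D.re : ℂ) := (conj_eq_iff_re.1 h).symm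
  have h3 : (1 / 2 : ℂ) = ((1 / 2 : ℝ) : ℂ) := by push_cast; rfl
  rw [sq, h1, h3, ← ofReal_cpow hp.le, conj_ofReal]

theorem den_ne (σ : ℝ) {κ : ℂ} {z : C2} (hκ : κ.im = 0) (hz : RealC2 z)
    (hp : 0 < (qD κ z).re) : (qEta σ κ z + 6 / 5) ^ 2 + qD κ z ≠ 0 := by
  have k := conj_eq_iff_im.2 hκ
  have z1 := conj_eq_iff_im.2 hz.1
  have z2 := conj_eq_iff_im.2 hz.2
  have hN : conj (qN z) = qN z := by simp only [qN, map_add, map_pow, map_one, z1, z2]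
  have hX : conj (qX z) = qX z := by simp only [qX, map_div₀, map_sub, map_ofNat, hN]
  have hG2 : conj (qG2 z) = qG2 z := by simp only [qG2, map_div₀, map_mul, map_ofNat, hN, z1]
  have hY : conj (qY z) = qY z := by simp only [qY, map_div₀, map_mul, map_ofNat, hN, z2]
  have hG : conj (qG κ z) = qG κ z := by
    simp only [qG, map_div₀, map_mul, map_sub, map_ofNat, hG2, k]
  have hD : conj (qD κ z) = qD κ z := by
    simp only [qD, map_pow, map_mul, map_sub, map_ofNat, hG, hX]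
  have hs : conj (qs κ z) = qs κ z := sq_real hD hp
  have hE : conj (qEta σ κ z + 6 / 5) = qEta σ κ z + 6 / 5 := by
    simp only [qEta, map_div₀, map_pow, map_mul, map_sub, map_add, map_ofNat, hG, hG2, hs, hY, hD,
      conj_ofReal]
  rw [← conj_eq_iff_re.1 hE]
  intro h
  have := congrArg Complex.re h
  rw [add_re, ← ofReal_pow, ofReal_re, zero_re] at this
  nlinarith [sq_nonneg (qEta σ κ z + 6 / 5).re]

/-- The chart `QQ` is injective on real regular points. -/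
theorem uv_eq (hQ : AlgQStmt) (hM : AlgMStmt) {κ : ℂ} {u v : C2} (hκ : κ.im = 0) (hu : RealC2 u)
    (hv : RealC2 v) (ou : OkZ κ u) (ov : OkZ κ v) (h : QQ 1 κ v = Gm (QQ (-1) κ u)) :
    v = Gm u := by
  have h1 := ((hQ 1 κ (Or.inl rfl)).2 v ov.1 ov.2.1 ov.2.2.1 ov.2.2.2.1.1
    (den_ne 1 hκ hv ov.2.1)).2.2.2
  have h2 := ((hQ (-1) κ (Or.inr rfl)).2 u ou.1 ou.2.1 ou.2.2.1 ou.2.2.2.2.1.1
    (den_ne (-1) hκ hu ou.2.1)).2.2.2
  rw [← h1, h, (hM.1 1 κ _).1, h2]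

variable {s : Sc} {a : ℝ} {n : ℕ} {arc : Xi × ℂ → Az} {κ : ℂ}

theorem eqs3 {z : Ws 15} (hR : (s.R : ℂ) ≠ 0) (hH : (s.rH : ℂ) ≠ 0) (hD : (s.D : ℂ) ≠ 0)
    (hr : (s.rm : ℂ) ≠ 0) (hz : ∀ j, z.2.1 j = GA s a n arc κ z j) :
    lA s a n arc κ z 1 0 = lA s a n arc κ z 0 0 ∧ lA s a n arc κ z 1 1 = lA s a n arc κ z 0 1 ∧
      lA s a n arc κ z 1 4 = -lA s a n arc κ z 0 4 ∧ lA s a n arc κ z 1 5 = -lA s a n arc κ z 0 5 ∧
      QQ 1 κ (uvA s a n arc κ z 1) = Gm (QQ (-1) κ (uvA s a n arc κ z 0)) ∧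
      z.2.1 6 = -z.2.1 1 := by
  have hp : (Real.pi : ℂ) ≠ 0 := ofReal_ne_zero.2 Real.pi_ne_zero
  have e0 : z.2.1 0 = (-((lA s a n arc κ z 0 5 - Real.pi * (s.R * z.2.1 0)) +
      (lA s a n arc κ z 1 5 - Real.pi * (s.R * z.2.1 5))) / (2 * Real.pi) -
      ((lA s a n arc κ z 0 1 - n - s.R * z.2.1 0) -
        (lA s a n arc κ z 1 1 - n - s.R * z.2.1 5)) / 2) / s.R := hz 0
  have e1 : z.2.1 1 = -((lA s a n arc κ z 0 0 - hn a n - s.rH * z.2.1 1) -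
      (lA s a n arc κ z 1 0 - hn a n - s.rH * z.2.1 6)) / (2 * s.rH) := hz 1
  have e2 : z.2.1 2 = -((lA s a n arc κ z 0 4 - s.D * z.2.1 2) +
      (lA s a n arc κ z 1 4 - s.D * z.2.1 7)) / (2 * s.D) := hz 2
  have e3 : z.2.1 3 = z.2.1 3 +
      ((QQ (-1) κ (uvA s a n arc κ z 0)).1 - (QQ 1 κ (uvA s a n arc κ z 1)).1) / s.rm := hz 3
  have e4 : z.2.1 4 = z.2.1 4 +
      ((QQ (-1) κ (uvA s a n arc κ z 0)).2 + (QQ 1 κ (uvA s a n arc κ z 1)).2) / s.rm := hz 4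
  have e5 : z.2.1 5 = (-((lA s a n arc κ z 0 5 - Real.pi * (s.R * z.2.1 0)) +
      (lA s a n arc κ z 1 5 - Real.pi * (s.R * z.2.1 5))) / (2 * Real.pi) +
      ((lA s a n arc κ z 0 1 - n - s.R * z.2.1 0) -
        (lA s a n arc κ z 1 1 - n - s.R * z.2.1 5)) / 2) / s.R := hz 5
  have e6 : z.2.1 6 = ((lA s a n arc κ z 0 0 - hn a n - s.rH * z.2.1 1) -
      (lA s a n arc κ z 1 0 - hn a n - s.rH * z.2.1 6)) / (2 * s.rH) := hz 6
  have e7 : z.2.1 7 = -((lA s a n arc κ z 0 4 - s.D * z.2.1 2) +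
      (lA s a n arc κ z 1 4 - s.D * z.2.1 7)) / (2 * s.D) := hz 7
  have h2R : (2 * s.rH : ℂ) ≠ 0 := mul_ne_zero two_ne_zero hH
  have h2D : (2 * s.D : ℂ) ≠ 0 := mul_ne_zero two_ne_zero hD
  have h2p : (2 * Real.pi : ℂ) ≠ 0 := mul_ne_zero two_ne_zero hp
  have f6 : z.2.1 6 = -z.2.1 1 := by linear_combination e1 + e6
  rw [eq_div_iff hR] at e0 e5
  rw [eq_div_iff h2R] at e1 e6
  rw [eq_div_iff h2D] at e2 e7
  rw [left_eq_add, div_eq_zero_iff, or_iff_left hr] at e3 e4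
  have e05 := (eq_div_iff h2p).1 (show (z.2.1 0 * s.R + z.2.1 5 * s.R) / 2 =
    -((lA s a n arc κ z 0 5 - Real.pi * (s.R * z.2.1 0)) +
      (lA s a n arc κ z 1 5 - Real.pi * (s.R * z.2.1 5))) / (2 * Real.pi) by
    linear_combination (e0 + e5) / 2)
  refine ⟨by linear_combination (e6 - e1) / 2, by linear_combination e5 - e0,
    by linear_combination (e2 + e7) / 2, by linear_combination e05, ?_, f6⟩
  exact Prod.ext (by simp only [Gm]; linear_combination -e3)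
    (by simp only [Gm]; linear_combination e4)

theorem eqs4 {z y : Ws 15} (hR : (s.R : ℂ) ≠ 0) (hH : (s.rH : ℂ) ≠ 0) (hD : (s.D : ℂ) ≠ 0)
    (hq : (s.q : ℂ) ≠ 0) (hB : (s.Bp : ℂ) ≠ 0) (hz : ∀ j, z.2.1 j = GA s a n arc κ z j)
    (hy : ∀ j, y.2.1 j = GA s a n arc κ y j) (zy : z.2.2.2 = y.2.1) (yz : y.2.2.2 = z.2.1) :
    lA s a n arc κ y 2 0 = lA s a n arc κ z 2 0 ∧ lA s a n arc κ y 2 1 = lA s a n arc κ z 2 1 ∧
      lA s a n arc κ y 2 4 = -lA s a n arc κ z 2 4 ∧ lA s a n arc κ y 2 5 = -lA s a n arc κ z 2 5 ∧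
      y.2.1 9 = -z.2.1 9 := by
  have hp : (Real.pi : ℂ) ≠ 0 := ofReal_ne_zero.2 Real.pi_ne_zero
  have h2D : (2 * s.D : ℂ) ≠ 0 := mul_ne_zero two_ne_zero hD
  have h2p : (2 * Real.pi : ℂ) ≠ 0 := mul_ne_zero two_ne_zero hp
  have k : ∀ x t : Ws 15, (∀ j, x.2.1 j = GA s a n arc κ x j) → x.2.2.2 = t.2.1 →
      x.2.1 8 * s.R = -(s.Bp * (x.2.1 14 + t.2.1 14)) / (2 * Real.pi) -
        s.q * (x.2.1 12 - t.2.1 12) / 2 ∧
      x.2.1 9 = -(s.q * (x.2.1 11 - t.2.1 11)) / 2 ∧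
      x.2.1 10 * (2 * s.D) = -(s.q * (x.2.1 13 + t.2.1 13)) ∧
      x.2.1 11 * (s.rH * s.q) = lA s a n arc κ x 2 0 - hn a n - s.rH * x.2.1 9 ∧
      x.2.1 12 * s.q = lA s a n arc κ x 2 1 - n - s.R * x.2.1 8 ∧
      x.2.1 13 * s.q = lA s a n arc κ x 2 4 - s.D * x.2.1 10 ∧
      x.2.1 14 * s.Bp = lA s a n arc κ x 2 5 - Real.pi * (s.R * x.2.1 8) := fun x t hx e => by
    rw [← e]
    exact ⟨(eq_div_iff hR).1 (hx 8), hx 9, (eq_div_iff h2D).1 (hx 10),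
      (eq_div_iff (mul_ne_zero hH hq)).1 (hx 11), (eq_div_iff hq).1 (hx 12),
      (eq_div_iff hq).1 (hx 13), (eq_div_iff hB).1 (hx 14)⟩
  obtain ⟨a8, a9, a10, a11, a12, a13, a14⟩ := k z y hz zy
  obtain ⟨b8, b9, b10, b11, b12, b13, b14⟩ := k y z hy yz
  have e8 := (eq_div_iff h2p).1 (show (z.2.1 8 * s.R + y.2.1 8 * s.R) / 2 =
    -(s.Bp * (z.2.1 14 + y.2.1 14)) / (2 * Real.pi) by linear_combination (a8 + b8) / 2)
  exact ⟨by linear_combination a11 - b11 - s.rH * (a9 - b9),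
    by linear_combination a12 - b12 - (a8 - b8),
    by linear_combination -(a13 + b13) + (a10 + b10) / 2,
    by linear_combination -(a14 + b14) + e8, by linear_combination a9 + b9⟩

theorem mirL_eq {j j' : Fin 3} {z z' : Az} (h0 : LL a j' κ z' 0 = LL a j κ z 0)
    (h1 : LL a j' κ z' 1 = LL a j κ z 1) (hu : UV z' = Gm (UV z))
    (h4 : LL a j' κ z' 4 = -LL a j κ z 4) (h5 : LL a j' κ z' 5 = -LL a j κ z 5) :
    LL a j' κ z' = mirL (LL a j κ z) := by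
  have h2 : LL a j' κ z' 2 = LL a j κ z 2 := (congrArg Prod.fst hu :)
  have h3 : LL a j' κ z' 3 = -LL a j κ z 3 := (congrArg Prod.snd hu :)
  generalize LL a j' κ z' = l' at *
  generalize LL a j κ z = l at *
  funext i
  fin_cases i
  exacts [h0, h1, h2, h3, h4, h5]

theorem uv_real {j : Fin 3} {z : Az} (h : ∀ i, (LL a j κ z i).im = 0) : RealC2 (UV z) :=
  ⟨h 2, h 3⟩

end LaMatch

open LaMatch in
theorem laMatch (hA : AlgAStmt) (hQ : AlgQStmt) (hM : AlgMStmt) (hI : InjStmt) (h0 : BaseStmt) :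
    LaMatchStmt := by
  intro s1 c0 c1 sa e1 d B μ μL a e η S w κ s n K enc arc m1 m2 h hsa hO hs hS hE hU
  obtain ⟨hR, hH, hD, hr, hq, hB, -⟩ := hs.pos
  have hR' : (s.R : ℂ) ≠ 0 := ofReal_ne_zero.2 hR.ne'
  have hH' : (s.rH : ℂ) ≠ 0 := ofReal_ne_zero.2 hH.ne'
  have hD' : (s.D : ℂ) ≠ 0 := ofReal_ne_zero.2 hD.ne'
  have hr' : (s.rm : ℂ) ≠ 0 := ofReal_ne_zero.2 hr.ne'
  have hq' : (s.q : ℂ) ≠ 0 := ofReal_ne_zero.2 hq.ne'
  have hB' : (s.Bp : ℂ) ≠ 0 := ofReal_ne_zero.2 hB.ne'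
  have nr : ∀ θ j, ‖((h θ j : ℝ) : ℂ)‖ < 1 := fun θ j => by
    rw [norm_real]; exact (norm_le_pi_norm (h θ) j).trans_lt (hS.mem θ).2
  have hv : ∀ θ j, vA s κ (ptW w m1 m2 h θ) j ∈ DV d s.R s.rH := fun θ j => by
    refine vA_mem h0 hs ?_ ((pi_norm_lt_iff one_pos).2 fun i => nr θ i)
      ((pi_norm_lt_iff one_pos).2 fun i => nr (-θ) i) j
    rw [show (ptW w m1 m2 h θ).1 = r2c (m1 θ, m2 θ) from rfl]
    exact (hS.mem θ).1
  have hrv : ∀ θ j, RealV (vA s κ (ptW w m1 m2 h θ) j) := fun θ j => vA_real s κ _ _ _ _ j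
  have hk : ∀ θ j, (vA s κ (ptW w m1 m2 h θ) j).1.1 = κ := fun θ j => by fin_cases j <;> rfl
  have hend := fun θ j => real_end hA hsa hO j (hv θ j) (hrv θ j)
  have hOk : ∀ θ j, OkA j κ (endN a n arc j (vA s κ (ptW w m1 m2 h θ) j)) := fun θ j => by
    have := (hO.est j _ (hv θ j)).2.2.2.2.2.2.1
    rwa [hk] at this
  have hκ : 1 / 4 ≤ κ := by
    have := (hO.est 0 _ (hv 0 0)).2.2.2.2.2.1
    rwa [hk, ofReal_re] at this
  have hang : ∀ θ j, ang a (physA (endN a n arc j (vA s κ (ptW w m1 m2 h θ) j))) = 5 / 8 * κ :=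
    fun θ j => by
      rw [(hend θ j).2.2.2.2.2, hk, show (5 / 8 * (κ : ℂ)) = ((5 / 8 * κ : ℝ) : ℂ) by push_cast; rfl,
        ofReal_re]
  have harc : ∀ j θ, arc (xiA s a n w κ m1 m2 h j θ, (TA s n w κ m1 m2 h j θ : ℂ)) =
      endN a n arc j (vA s κ (ptW w m1 m2 h θ) j) := fun j θ => by
    rw [endN, (hend θ j).1]; rfl
  obtain ⟨I1, I2⟩ := hI a κ hO.pos.1 hO.pos.2.1 (ofReal_im κ)
  have hru : ∀ θ j, RealC2 (uvA s a n arc κ (ptW w m1 m2 h θ) j) := fun θ j =>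
    uv_real (I1 j _ (hend θ j).2.2.2.1 (hOk θ j))
  have R3 : ∀ θ, Rot (mir (physA (endN a n arc 1 (vA s κ (ptW w m1 m2 h θ) 1))))
      (physA (endN a n arc 0 (vA s κ (ptW w m1 m2 h θ) 0))) ∧ h θ 1 = 0 ∧ h θ 6 = 0 := fun θ => by
    obtain ⟨f0, f1, f4, f5, fq, f6⟩ := eqs3 (z := ptW w m1 m2 h θ) hR' hH' hD' hr' (hE θ)
    have hu := uv_eq hQ hM (ofReal_im κ) (hru θ 0) (hru θ 1) (hOk θ 0).2.2.2.2.2.2.2.2.2.1
      (hOk θ 1).2.2.2.2.2.2.2.2.2.1 fq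
    have hrot := I2 0 1 _ _ (Or.inl ⟨rfl, rfl⟩) (hend θ 0).2.2.2.1 (hend θ 1).2.2.2.1 (hOk θ 0)
      (hOk θ 1) (by rw [hang, hang]) (by rw [hang]; positivity)
      (mirL_eq f0 f1 hu f4 f5)
    have hh := ham_rot a e hrot
    rw [(hend θ 1).2.2.2.2.1, (hend θ 0).2.2.2.2.1] at hh
    have hh' : (hn a n + s.rH * (h θ 6 : ℂ)).re = (hn a n + s.rH * (h θ 1 : ℂ)).re := hh
    have f6' : (h θ 6 : ℂ) = -(h θ 1 : ℂ) := f6
    have f6'' : h θ 6 = -h θ 1 := by exact_mod_cast f6'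
    simp only [add_re, ← ofReal_mul, ofReal_re, add_right_inj] at hh'
    have := mul_left_cancel₀ hH.ne' hh'
    exact ⟨hrot, by linarith, by linarith⟩
  have R4 : ∀ θ, Rot (mir (physA (endN a n arc 2 (vA s κ (ptW w m1 m2 h (-θ - w)) 2))))
      (physA (endN a n arc 2 (vA s κ (ptW w m1 m2 h θ) 2))) ∧ h θ 9 = 0 := fun θ => by
    obtain ⟨f0, f1, f4, f5, f9⟩ := eqs4 (z := ptW w m1 m2 h θ) (y := ptW w m1 m2 h (-θ - w))
      hR' hH' hD' hq' hB' (hE θ) (hE _) rfl (by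
        simp only [ptW, rw3]; rw [show -(-θ - w) - w = θ by ring])
    have hu := hU θ
    have hrot := I2 2 2 _ _ (Or.inr ⟨rfl, rfl⟩) (hend θ 2).2.2.2.1 (hend (-θ - w) 2).2.2.2.1
      (hOk θ 2) (hOk _ 2) (by rw [hang, hang]) (by rw [hang]; positivity)
      (mirL_eq f0 f1 hu f4 f5)
    have hh := ham_rot a e hrot
    rw [(hend _ 2).2.2.2.2.1, (hend θ 2).2.2.2.2.1] at hh
    have hh' : (hn a n + s.rH * (h (-θ - w) 9 : ℂ)).re = (hn a n + s.rH * (h θ 9 : ℂ)).re := hh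
    have f9' : (h (-θ - w) 9 : ℂ) = -(h θ 9 : ℂ) := f9
    have f9'' : h (-θ - w) 9 = -h θ 9 := by exact_mod_cast f9'
    simp only [add_re, ← ofReal_mul, ofReal_re, add_right_inj] at hh'
    have := mul_left_cancel₀ hH.ne' hh'
    exact ⟨hrot, by linarith⟩
  have hmir : ∀ θ j, xiY a (sg j) ![yN a n (vA s κ (ptW w m1 m2 h θ) j) 0,
      yN a n (vA s κ (ptW w m1 m2 h θ) j) 1, yN a n (vA s κ (ptW w m1 m2 h θ) j) 2,
      -yN a n (vA s κ (ptW w m1 m2 h θ) j) 3, yN a n (vA s κ (ptW w m1 m2 h θ) j) 5,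
      yN a n (vA s κ (ptW w m1 m2 h θ) j) 4] = mirXi (-(sg j : ℝ)) (xiA s a n w κ m1 m2 h j θ) :=
    fun θ j => ((hA a (sg j) _ (sg_cases j) (hO.est j _ (hv θ j)).2.1).2
      (yN_real (hv θ j) (hrv θ j) hO.big)).2.2.1
  refine ⟨fun θ => ?_, fun θ => ?_, fun θ => ?_, fun θ => ?_⟩
  · have e := hmir θ 0
    rw [show (-(sg 0 : ℝ) : ℂ) = 1 by simp [sg]] at e
    rw [← e, xiA, xiN_eq]
    congr 1
    funext i
    fin_cases i <;>
      simp [yN, vA, ptW, rw3, r2c, (hS.par θ).1, (hS.par θ).2, (R3 θ).2.1, (R3 (-θ)).2.1]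
  · have e := hmir θ 2
    rw [show (-(sg 2 : ℝ) : ℂ) = -1 by simp [sg]] at e
    rw [← e, xiA, xiN_eq, show sg 1 = sg 2 by simp [sg]]
    congr 1
    funext i
    fin_cases i <;> simp [yN, vA, ptW, rw3, Gm, (R3 θ).2.2, (R4 θ).2]
  · rw [harc, harc]; exact (R3 θ).1
  · rw [harc, harc]; exact (R4 θ).1

end Pool.Agent.MP_1ba41f_an.S2
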