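import Pool.Agent.MP_1ba41f_an.S2.LA.Spec
import Pool.Agent.MP_1ba41f_an.S2.FL.Soft

/-! Uniform continuity near the resonant circles. -/

noncomputable section
open Set Complex Metric Filter Topology

namespace Pool.Agent.MP_1ba41f_an.S2

namespace Unif

theorem unif_ev {E F : Type} [PseudoMetricSpace E] [PseudoMetricSpace F] {K V : Set E}
    (hK : IsCompact K) (hV : IsOpen V) (hKV : K ⊆ V) {f : E → F} (hf : ContinuousOn f V)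
    {η : ℝ} (hη : 0 < η) :
    ∀ᶠ μ in 𝓝[>] (0 : ℝ), ∀ x ∈ K, ∀ y, dist y x ≤ μ → dist (f y) (f x) ≤ η := by
  obtain ⟨d, hd, -, h⟩ := soft_unif hK hV hKV hf hη
  filter_upwards [Ioo_mem_nhdsGT hd] with μ hμ x hx y hy
  exact (h x hx y (hy.trans hμ.2.le)).2

theorem cont_sq {f : ℂ × C2 → ℂ} {x : ℂ × C2} (hf : ContinuousAt f x) (h : f x ∈ slitPlane) :
    ContinuousAt (fun y => sq (f y)) x := hf.cpow continuousAt_const h

theorem sq_ne {z : ℂ} (h : z ∈ slitPlane) : sq z ≠ 0 := by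
  rw [sq, Ne, cpow_eq_zero_iff]
  exact fun h0 => slitPlane_ne_zero h h0.1

theorem sq_real {r : ℝ} (h : 0 ≤ r) : sq r = (Real.sqrt r : ℝ) := by
  rw [sq, Real.sqrt_eq_rpow, ofReal_cpow h]
  push_cast
  rfl

def f0 (x : ℂ × C2) : ℂ := x.1 ^ 2 + x.2.2 ^ 2
def f1 (x : ℂ × C2) : ℂ := bD x.1 x.2 + bK x.1 x.2 ^ 2
def f2 (x : ℂ × C2) : ℂ := (x.1 - I * x.2.2) / sq (f0 x)
def f3 (τ : ℝ) (x : ℂ × C2) : ℂ := (bs x.1 x.2 - I * τ * bK x.1 x.2) / sq (f1 x)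

/-- the branch conditions for the directions -/
def Ok (τ : ℝ) (x : ℂ × C2) : Prop :=
  OkM x.1 x.2 ∧ f0 x ∈ slitPlane ∧ f1 x ∈ slitPlane ∧ f2 x ∈ slitPlane ∧ f3 τ x ∈ slitPlane

theorem Ok.cont {τ : ℝ} {x : ℂ × C2} (h : Ok τ x) : ContinuousAt f0 x ∧ ContinuousAt f1 x ∧
    ContinuousAt f2 x ∧ ContinuousAt (f3 τ) x := by
  obtain ⟨hM, h0, h1, -, -⟩ := h
  have cE : ContinuousAt (fun y : ℂ × C2 => bEta y.1 y.2) x := by
    unfold bEta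
    exact ContinuousAt.div (by fun_prop) (by fun_prop) (mul_ne_zero (by norm_num) hM.1)
  have cD : ContinuousAt (fun y : ℂ × C2 => bD y.1 y.2) x := by
    unfold bD
    fun_prop
  have cK : ContinuousAt (fun y : ℂ × C2 => bK y.1 y.2) x := by
    unfold bK
    fun_prop
  have cs : ContinuousAt (fun y : ℂ × C2 => bs y.1 y.2) x := cont_sq cD (Or.inl hM.2.1)
  have c0 : ContinuousAt f0 x := by
    unfold f0
    fun_prop
  have c1 : ContinuousAt f1 x := cD.add (cK.pow 2)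
  exact ⟨c0, c1, ContinuousAt.div (by fun_prop) (cont_sq c0 h0) (sq_ne h0),
    ContinuousAt.div (cs.sub (continuousAt_const.mul cK)) (cont_sq c1 h1) (sq_ne h1)⟩

theorem Ok.eb {τ : ℝ} {x : ℂ × C2} (h : Ok τ x) (σ : ℝ) :
    ContinuousAt (fun y : ℂ × C2 => eb σ τ y.1 y.2) x :=
  (continuousAt_const.mul (cont_sq h.cont.2.2.1 h.2.2.2.1)).mul (cont_sq h.cont.2.2.2 h.2.2.2.2)

theorem isOpen_ok (hA : AnaStmt) (τ : ℝ) : IsOpen {x | Ok τ x} := by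
  refine isOpen_iff_mem_nhds.2 fun x hx => ?_
  obtain ⟨c0, c1, c2, c3⟩ := Ok.cont hx
  filter_upwards [hA.1.1.mem_nhds hx.1, c0.eventually (isOpen_slitPlane.mem_nhds hx.2.1),
    c1.eventually (isOpen_slitPlane.mem_nhds hx.2.2.1),
    c2.eventually (isOpen_slitPlane.mem_nhds hx.2.2.2.1),
    c3.eventually (isOpen_slitPlane.mem_nhds hx.2.2.2.2)] with y h1 h2 h3 h4 h5
  exact ⟨h1, h2, h3, h4, h5⟩

theorem ok_real (τ : ℝ) {k r p : ℝ} (hk : 0 < k) (hM : OkM k (r, p)) :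
    Ok τ ((k : ℂ), ((r : ℂ), (p : ℂ))) := by
  obtain ⟨η, hη⟩ : ∃ η : ℝ, bEta k (r, p) = η :=
    ⟨(p ^ 2 + k ^ 2 + r ^ 2 - 68 / 25 * r) / (6 / 5 * r), by rw [bEta]; push_cast; rfl⟩
  obtain ⟨d, hd⟩ : ∃ d : ℝ, bD k (r, p) = d := ⟨4 - 2 * r - η ^ 2, by rw [bD, hη]; push_cast; rfl⟩
  obtain ⟨K, hK⟩ : ∃ K : ℝ, bK k (r, p) = K :=
    ⟨(5 * r - 4 + 2 * η) / 8, by rw [bK, hη]; push_cast; rfl⟩
  have d0 : 0 < d := by simpa [hd] using hM.2.1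
  have e0 : f0 ((k : ℂ), ((r : ℂ), (p : ℂ))) = ((k ^ 2 + p ^ 2 : ℝ) : ℂ) := by
    rw [f0]; push_cast; rfl
  have e1 : f1 ((k : ℂ), ((r : ℂ), (p : ℂ))) = ((d + K ^ 2 : ℝ) : ℂ) := by
    rw [f1, hd, hK]; push_cast; rfl
  have p0 : 0 < k ^ 2 + p ^ 2 := by positivity
  have p1 : 0 < d + K ^ 2 := by positivity
  refine ⟨hM, e0 ▸ ofReal_mem_slitPlane.2 p0, e1 ▸ ofReal_mem_slitPlane.2 p1, Or.inl ?_, Or.inl ?_⟩
  · rw [f2, e0, sq_real p0.le, div_ofReal_re]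
    exact div_pos (by simpa using hk) (Real.sqrt_pos.2 p0)
  · rw [f3, e1, sq_real p1.le, div_ofReal_re, bs, hd, hK, sq_real d0.le]
    exact div_pos (by simpa using d0) (Real.sqrt_pos.2 p1)

theorem dist_pair (k : ℂ) (y z : C2) : dist (k, y) (k, z) = ‖y - z‖ := by
  rw [Prod.dist_eq, dist_self, dist_eq_norm, max_eq_right (norm_nonneg _)]

end Unif

open Unif in
theorem unifS (hQ : AlgQStmt) (hA : AnaStmt) (h0 : BaseStmt) : UnifStmt := by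
  have cP : ∀ σ : ℝ, σ = 1 ∨ σ = -1 →
      ContinuousOn (fun x : ℂ × C2 => (x.1, PP σ x.1 x.2)) {x | OkM x.1 x.2} := fun σ hσ =>
    continuousOn_fst.prodMk (hA.1.2 σ hσ).1.continuousOn
  have oZ : ∀ σ : ℝ, σ = 1 ∨ σ = -1 → IsOpen ({x : ℂ × C2 | OkM x.1 x.2} ∩
      (fun x : ℂ × C2 => (x.1, PP σ x.1 x.2)) ⁻¹' {x | OkZ x.1 x.2}) := fun σ hσ =>
    (cP σ hσ).isOpen_inter_preimage hA.1.1 hA.2.1.1
  have hV := ((oZ 1 (Or.inl rfl)).inter (oZ (-1) (Or.inr rfl))).inter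
    ((isOpen_ok hA 1).inter (isOpen_ok hA (-1)))
  obtain ⟨D, hD, hsub⟩ := h0.1.exists_cthickening_subset_open hV (fun x hx => by
    obtain ⟨-, h1, ⟨h2, h3⟩, h4, -, h5, -, h6, h7⟩ := h0.2.1 x hx
    have e : x = ((x.1.re : ℂ), ((x.2.1.re : ℂ), (x.2.2.re : ℂ))) :=
      Prod.ext (Complex.ext rfl (by simpa using h1))
        (Prod.ext (Complex.ext rfl (by simpa using h2)) (Complex.ext rfl (by simpa using h3)))
    have ok : ∀ τ, Ok τ x := fun τ => by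
      rw [e] at h5 ⊢
      exact ok_real τ (by linarith) h5
    exact ⟨⟨⟨h5, h6⟩, h5, h7⟩, ok 1, ok (-1)⟩)
  have hK : IsCompact (cthickening D B1) := h0.1.cthickening
  have hM : cthickening D B1 ⊆ {x | OkM x.1 x.2} := fun x hx => (hsub hx).1.1.1
  refine ⟨D, hD, fun ε hε => ?_⟩
  have e1 : ∀ σ : ℝ, σ = 1 ∨ σ = -1 → ∀ᶠ μ in 𝓝[>] (0 : ℝ), ∀ x ∈ cthickening D B1, ∀ z : C2,
      ‖z - PP σ x.1 x.2‖ ≤ μ → ‖QQ σ x.1 z - x.2‖ ≤ ε := fun σ hσ => by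
    have := unif_ev (hK.image_of_continuousOn ((cP σ hσ).mono hM)) hA.2.1.1 (by
      rintro _ ⟨x, hx, rfl⟩
      rcases hσ with rfl | rfl
      · exact (hsub hx).1.1.2
      · exact (hsub hx).1.2.2) (hA.2.1.2.1 σ).continuousOn hε
    filter_upwards [this] with μ hμ x hx z hz
    have h := hμ _ ⟨x, hx, rfl⟩ (x.1, z) (by rwa [dist_pair])
    rwa [dist_eq_norm, ((hQ σ x.1 hσ).1 x.2 (hM hx)).2.2.2.2.2.2.2] at h
  have e2 : ∀ᶠ μ in 𝓝[>] (0 : ℝ), ∀ x ∈ cthickening D B1, ∀ m : C2, ‖m - x.2‖ ≤ μ →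
      ‖PP 1 x.1 m - PP 1 x.1 x.2‖ ≤ ε := by
    filter_upwards [unif_ev hK hA.1.1 hM (hA.1.2 1 (Or.inl rfl)).1.continuousOn hε]
      with μ hμ x hx m hm
    have h := hμ x hx (x.1, m) ((dist_pair x.1 m x.2).trans_le hm)
    rwa [dist_eq_norm] at h
  have e3 : ∀ σ τ : ℝ, τ = 1 ∨ τ = -1 → ∀ᶠ μ in 𝓝[>] (0 : ℝ), ∀ x ∈ cthickening D B1, ∀ m : C2,
      ‖m - x.2‖ ≤ μ → ‖eb σ τ x.1 m - eb σ τ x.1 x.2‖ ≤ ε := fun σ τ hτ => by
    have := unif_ev hK (isOpen_ok hA τ) (fun x hx => by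
      rcases hτ with rfl | rfl
      · exact (hsub hx).2.1
      · exact (hsub hx).2.2) (fun x hx => (Ok.eb hx σ).continuousWithinAt) hε
    filter_upwards [this] with μ hμ x hx m hm
    have h := hμ x hx (x.1, m) ((dist_pair x.1 m x.2).trans_le hm)
    rwa [dist_eq_norm] at h
  obtain ⟨μ, ⟨⟨⟨a1, a2⟩, a3⟩, ⟨a4, a5⟩, a6, a7⟩, hμ⟩ :=
    (((((e1 1 (Or.inl rfl)).and (e1 (-1) (Or.inr rfl))).and e2).and
      (((e3 1 1 (Or.inl rfl)).and (e3 1 (-1) (Or.inr rfl))).and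
        ((e3 (-1) 1 (Or.inl rfl)).and (e3 (-1) (-1) (Or.inr rfl))))).and
      self_mem_nhdsWithin).exists
  refine ⟨μ, hμ, fun x hx => ⟨?_, a3 x hx, ?_⟩⟩
  · rintro σ (rfl | rfl)
    exacts [a1 x hx, a2 x hx]
  · rintro σ τ (rfl | rfl) (rfl | rfl)
    exacts [a4 x hx, a5 x hx, a6 x hx, a7 x hx]

end Pool.Agent.MP_1ba41f_an.S2
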